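import Pool.Agent.N587.DL.Final

/-!
# Arithmetic
-/

set_option autoImplicit false

namespace Pool.Agent.N587.DM

open Pool.Agent.N587.DL

theorem pow_le_two (u K : ℕ) (hK : 1 ≤ K) : u ^ K ≤ K ^ K * 2 ^ u := by
  have h1 : u ≤ K * (u / K + 1) := (Nat.lt_mul_div_succ u (by omega)).le
  have h2 : u / K + 1 ≤ 2 ^ (u / K) := Nat.lt_two_pow_self
  calc u ^ K ≤ (K * 2 ^ (u / K)) ^ K :=
        Nat.pow_le_pow_left (h1.trans (Nat.mul_le_mul_left K h2)) K
    _ = K ^ K * 2 ^ (u / K * K) := by rw [mul_pow, ← pow_mul]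
    _ ≤ K ^ K * 2 ^ u := Nat.mul_le_mul_left _ (Nat.pow_le_pow_right (by norm_num)
        (Nat.div_mul_le_self u K))

/-- The base of the running time. -/
def BB (n s e d : ℕ) : ℕ := (n + 1) * s ^ (Nat.log 2 s + 1) * e * d

section
variable {n s e d : ℕ} (hn : 1 ≤ n) (hs : 1 ≤ s) (he : 1 ≤ e) (hd : 1 ≤ d)
include hn hs he hd

theorem BB_ge_mul : (n + 1) * s ^ (Nat.log 2 s + 1) ≤ BB n s e d := by
  unfold BB
  calc (n + 1) * s ^ (Nat.log 2 s + 1) = (n + 1) * s ^ (Nat.log 2 s + 1) * 1 * 1 := by ring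
    _ ≤ (n + 1) * s ^ (Nat.log 2 s + 1) * e * d := by gcongr

theorem BB_ge_two : 2 ≤ BB n s e d := by
  refine le_trans ?_ (BB_ge_mul hn hs he hd)
  have : 1 ≤ s ^ (Nat.log 2 s + 1) := Nat.one_le_pow _ _ (by omega)
  nlinarith

theorem BB_ge_n : n ≤ BB n s e d := by
  refine le_trans ?_ (BB_ge_mul hn hs he hd)
  have : 1 ≤ s ^ (Nat.log 2 s + 1) := Nat.one_le_pow _ _ (by omega)
  nlinarith

theorem BB_ge_sl : 2 * s ^ (Nat.log 2 s + 1) ≤ BB n s e d := by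
  refine le_trans ?_ (BB_ge_mul hn hs he hd)
  exact Nat.mul_le_mul_right _ (by omega)

theorem BB_ge_s : 2 * s ≤ BB n s e d := by
  refine le_trans ?_ (BB_ge_sl hn hs he hd)
  refine Nat.mul_le_mul_left _ ?_
  calc s = s ^ 1 := (pow_one s).symm
    _ ≤ s ^ (Nat.log 2 s + 1) := Nat.pow_le_pow_right (by omega) (by omega)

theorem BB_ge_sed : s * e * d ≤ BB n s e d := by
  unfold BB
  have h1 : s ≤ s ^ (Nat.log 2 s + 1) := by
    calc s = s ^ 1 := (pow_one s).symm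
      _ ≤ s ^ (Nat.log 2 s + 1) := Nat.pow_le_pow_right (by omega) (by omega)
  calc s * e * d = 1 * s * e * d := by ring
    _ ≤ (n + 1) * s ^ (Nat.log 2 s + 1) * e * d := by gcongr; omega

theorem BB_ge_two_pow : 2 ^ (Nat.log 2 s + 1) ≤ BB n s e d := by
  refine le_trans ?_ (BB_ge_s hn hs he hd)
  rw [pow_succ, mul_comm]
  exact Nat.mul_le_mul_left _ (Nat.pow_log_le_self 2 (by omega))

theorem BB_ge_pow (q : ℕ) : q ^ (Nat.log 2 s + 1) ≤ BB n s e d ^ q := by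
  calc q ^ (Nat.log 2 s + 1) ≤ (2 ^ q) ^ (Nat.log 2 s + 1) :=
        Nat.pow_le_pow_left (Nat.lt_two_pow_self).le _
    _ = (2 ^ (Nat.log 2 s + 1)) ^ q := by rw [← pow_mul, ← pow_mul, mul_comm]
    _ ≤ BB n s e d ^ q := Nat.pow_le_pow_left (BB_ge_two_pow hn hs he hd) _

theorem BB_ge_ll : (Nat.log 2 s + 1) ^ (Nat.log 2 s + 1) ≤ BB n s e d := by
  have h1 : Nat.log 2 s + 1 ≤ s :=
    (Nat.lt_two_pow_self (n := Nat.log 2 s)).trans_le (Nat.pow_log_le_self 2 (by omega))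
  calc (Nat.log 2 s + 1) ^ (Nat.log 2 s + 1) ≤ s ^ (Nat.log 2 s + 1) := Nat.pow_le_pow_left h1 _
    _ ≤ BB n s e d := by
        have := BB_ge_sl hn hs he hd
        omega

/-- The main estimate. -/
theorem QQ_le {a t k : ℕ} (ha : 2 ≤ a) (ht : BB n s e d ^ (6000 * a ^ 2) ≤ t)
    (hk : k ≤ s * (15 * a * (Nat.log 2 t + 1)) + 1) :
    QQ k s 1 (2 * e) (4 * d) ^ (8 * a + 10) ≤ t := by
  set B := BB n s e d with hB
  set l := Nat.log 2 s + 1 with hl
  set A := 8 * a + 10 with hA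
  set u := Nat.log 2 t + 1 with hu
  have hB2 : 2 ≤ B := BB_ge_two hn hs he hd
  have ht1 : 1 ≤ t := le_trans (Nat.one_le_pow _ _ (by omega)) ht
  have hu1 : 1 ≤ u := by omega
  have h2k : 2 * k ≤ 60 * a * s * u := by
    have h1 : 1 ≤ s * a * u := Nat.one_le_iff_ne_zero.2 (by positivity)
    have h2 : s * (15 * a * u) = 15 * (s * a * u) := by ring
    have h3 : 60 * a * s * u = 60 * (s * a * u) := by ring
    rw [h2] at hk
    rw [h3]
    omega
  have hl1 : 1 ≤ l := by omega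
  have hA1 : 1 ≤ A := by omega
  -- the fourth power
  have h4 : (QQ k s 1 (2 * e) (4 * d) ^ A) ^ 4 ≤ t ^ 4 := by
    have e1 : QQ k s 1 (2 * e) (4 * d) ≤ (60 * a * s * u) ^ l * (8 * (s * e * d)) := by
      unfold QQ
      calc (2 * k) ^ (Nat.log 2 s + 1) * s * 1 * (2 * e) * (4 * d) =
            (2 * k) ^ l * (8 * (s * e * d)) := by rw [hl]; ring
        _ ≤ (60 * a * s * u) ^ l * (8 * (s * e * d)) :=
            Nat.mul_le_mul_right _ (Nat.pow_le_pow_left h2k _)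
    have e2 : ((60 * a * s * u) ^ l * (8 * (s * e * d))) ^ (4 * A) =
        ((60 * a) ^ l) ^ (4 * A) * (s ^ l) ^ (4 * A) * u ^ (4 * l * A) *
          (8 * (s * e * d)) ^ (4 * A) := by
      rw [mul_pow, ← pow_mul, ← pow_mul, ← pow_mul, mul_pow, mul_pow,
        show 4 * l * A = l * (4 * A) by ring]
    have e3 : u ^ (4 * l * A) ≤ ((4 * A) ^ l) ^ (4 * A) * (l ^ l) ^ (4 * A) * (2 * t) := by
      refine (pow_le_two u (4 * l * A) (Nat.one_le_iff_ne_zero.2 (by positivity))).trans ?_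
      have h1 : (4 * l * A) ^ (4 * l * A) = ((4 * A) ^ l) ^ (4 * A) * (l ^ l) ^ (4 * A) := by
        rw [← pow_mul, ← pow_mul, ← mul_pow]
        congr 1 <;> ring
      rw [h1]
      refine Nat.mul_le_mul_left _ ?_
      rw [hu, pow_succ, mul_comm]
      exact Nat.mul_le_mul_left _ (Nat.pow_log_le_self 2 (by omega))
    have f1 : ((60 * a) ^ l) ^ (4 * A) ≤ (B ^ (60 * a)) ^ (4 * A) :=
      Nat.pow_le_pow_left (BB_ge_pow hn hs he hd _) _
    have f2 : (s ^ l) ^ (4 * A) ≤ B ^ (4 * A) :=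
      Nat.pow_le_pow_left ((Nat.le_mul_of_pos_left _ (by norm_num : 0 < 2)).trans
        (BB_ge_sl hn hs he hd)) _
    have f3 : ((4 * A) ^ l) ^ (4 * A) ≤ (B ^ (4 * A)) ^ (4 * A) :=
      Nat.pow_le_pow_left (BB_ge_pow hn hs he hd _) _
    have f4 : (l ^ l) ^ (4 * A) ≤ B ^ (4 * A) :=
      Nat.pow_le_pow_left (BB_ge_ll hn hs he hd) _
    have f5 : (8 * (s * e * d)) ^ (4 * A) ≤ (B ^ 4) ^ (4 * A) := by
      refine Nat.pow_le_pow_left ?_ _
      calc 8 * (s * e * d) ≤ B ^ 3 * B := by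
            refine Nat.mul_le_mul ?_ (BB_ge_sed hn hs he hd)
            calc 8 = 2 ^ 3 := by norm_num
              _ ≤ B ^ 3 := Nat.pow_le_pow_left hB2 3
        _ = B ^ 4 := by ring
    have hexp : 60 * a * (4 * A) + 4 * A + (4 * A * (4 * A) + 4 * A) + 4 * (4 * A) + 1 ≤
        6000 * a ^ 2 := by
      rw [hA]
      nlinarith
    calc (QQ k s 1 (2 * e) (4 * d) ^ A) ^ 4 = QQ k s 1 (2 * e) (4 * d) ^ (4 * A) := by
          rw [← pow_mul, mul_comm A 4]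
      _ ≤ ((60 * a * s * u) ^ l * (8 * (s * e * d))) ^ (4 * A) := Nat.pow_le_pow_left e1 _
      _ = ((60 * a) ^ l) ^ (4 * A) * (s ^ l) ^ (4 * A) * u ^ (4 * l * A) *
          (8 * (s * e * d)) ^ (4 * A) := e2
      _ ≤ (B ^ (60 * a)) ^ (4 * A) * B ^ (4 * A) *
          ((B ^ (4 * A)) ^ (4 * A) * B ^ (4 * A) * (B * t)) * (B ^ 4) ^ (4 * A) := by
          refine Nat.mul_le_mul (Nat.mul_le_mul (Nat.mul_le_mul f1 f2) (e3.trans ?_)) f5
          exact Nat.mul_le_mul (Nat.mul_le_mul f3 f4) (Nat.mul_le_mul_right t hB2)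
      _ = B ^ (60 * a * (4 * A) + 4 * A + (4 * A * (4 * A) + 4 * A) + 4 * (4 * A) + 1) * t := by
          rw [← pow_mul, ← pow_mul, ← pow_mul]
          ring
      _ ≤ B ^ (6000 * a ^ 2) * t :=
          Nat.mul_le_mul_right _ (Nat.pow_le_pow_right (by omega) hexp)
      _ ≤ t * t := Nat.mul_le_mul_right _ ht
      _ ≤ t * t * (t * t) := Nat.le_mul_of_pos_right _ (Nat.mul_pos ht1 ht1)
      _ = t ^ 4 := by ring
  exact le_of_pow_le_pow_left₀ (by norm_num) (Nat.zero_le _) h4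

theorem t_ge {a t : ℕ} (ha : 2 ≤ a) (ht : BB n s e d ^ (6000 * a ^ 2) ≤ t) :
    256 * a * BB n s e d ^ 4 ≤ t := by
  have hB2 : 2 ≤ BB n s e d := BB_ge_two hn hs he hd
  refine le_trans ?_ ht
  calc 256 * a * BB n s e d ^ 4 ≤ BB n s e d ^ 8 * BB n s e d ^ a * BB n s e d ^ 4 := by
        refine Nat.mul_le_mul_right _ (Nat.mul_le_mul ?_ ?_)
        · calc 256 = 2 ^ 8 := by norm_num
            _ ≤ BB n s e d ^ 8 := Nat.pow_le_pow_left hB2 8
        · exact (Nat.lt_two_pow_self).le.trans (Nat.pow_le_pow_left hB2 a)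
    _ = BB n s e d ^ (8 + a + 4) := by rw [← pow_add, ← pow_add]
    _ ≤ BB n s e d ^ (6000 * a ^ 2) := Nat.pow_le_pow_right (by omega) (by nlinarith)

end

/-- The bound for long terms. -/
theorem long_le {a t : ℕ} (ha : 2 ≤ a) (ht : 1 ≤ t) :
    (1 - 1 / (a : ℝ)) ^ (15 * a * (Nat.log 2 t + 1)) < 1 / (t : ℝ) ^ 15 := by
  have ha2 : (2 : ℝ) ≤ a := by exact_mod_cast ha
  have h3 : 1 / (a : ℝ) ≤ 1 / 2 := one_div_le_one_div_of_le (by norm_num) ha2
  have h1 : (1 - 1 / (a : ℝ)) ^ a ≤ 1 / 2 := by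
    have h4 : (1 - 1 / (a : ℝ)) ≤ Real.exp (-(1 / (a : ℝ))) := by
      have := Real.add_one_le_exp (-(1 / (a : ℝ)))
      linarith
    calc (1 - 1 / (a : ℝ)) ^ a ≤ (Real.exp (-(1 / (a : ℝ)))) ^ a :=
          pow_le_pow_left₀ (by linarith) h4 a
      _ = Real.exp (-1) := by
          rw [← Real.exp_nat_mul]
          congr 1
          field_simp
      _ ≤ 1 / 2 := by
          rw [Real.exp_neg, one_div]
          apply inv_anti₀ (by norm_num)
          have := Real.add_one_le_exp (1 : ℝ)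
          linarith
  have h2 : t < 2 ^ (Nat.log 2 t + 1) := Nat.lt_pow_succ_log_self (by norm_num) t
  have h2r : (t : ℝ) < 2 ^ (Nat.log 2 t + 1) := by exact_mod_cast h2
  have ht0 : (0 : ℝ) < t := by exact_mod_cast ht
  calc (1 - 1 / (a : ℝ)) ^ (15 * a * (Nat.log 2 t + 1)) =
        ((1 - 1 / (a : ℝ)) ^ a) ^ (15 * (Nat.log 2 t + 1)) := by
        rw [← pow_mul]
        congr 1
        ring
    _ ≤ (1 / 2) ^ (15 * (Nat.log 2 t + 1)) :=
        pow_le_pow_left₀ (pow_nonneg (by linarith) _) h1 _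
    _ = 1 / ((2 : ℝ) ^ (Nat.log 2 t + 1)) ^ 15 := by
        rw [one_div, inv_pow, ← pow_mul, one_div, mul_comm]
    _ < 1 / (t : ℝ) ^ 15 := by
        apply one_div_lt_one_div_of_lt (by positivity)
        exact pow_lt_pow_left₀ h2r ht0.le (by norm_num)

end Pool.Agent.N587.DM
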