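import Pool.Agent.N587.DM.Prod
import Pool.Agent.N587.DL.Algo

/-!
# Influences
-/

set_option autoImplicit false

namespace Pool.Agent.N587.DM

open Finset Pool.Agent.N587.DL

variable {n : ℕ}

/-- The influence of the coordinate `j`. -/
noncomputable def inf (p : Fin n → ℝ) (f : (Fin n → Bool) → Bool) (j : Fin n) : ℝ :=
  ∑ x, wp p x * (if f (Function.update x j true) ≠ f (Function.update x j false) then 1 else 0)

theorem inf_nonneg {p : Fin n → ℝ} (hp : ∀ i, 0 ≤ p i ∧ p i ≤ 1) (f : (Fin n → Bool) → Bool)
    (j : Fin n) : 0 ≤ inf p f j := by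
  refine sum_nonneg fun x _ => mul_nonneg (wp_nonneg hp x) ?_
  split_ifs <;> norm_num

theorem update_self_bool (y : Fin n → Bool) (j : Fin n) (b : Bool) (hb : y j = b) :
    Function.update y j b = y := by
  subst hb
  exact Function.update_eq_self j y

/-- The coordinates in `J` may be fixed with a small loss. -/
theorem sum_fix_le {p : Fin n → ℝ} (hp : ∀ i, 0 ≤ p i ∧ p i ≤ 1) (f : (Fin n → Bool) → Bool)
    (J : Finset (Fin n)) :
    ∑ z, wp p z * ∑ x, wp p x * (if f x ≠ f (mix J x z) then 1 else 0) ≤ ∑ j ∈ J, inf p f j := by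
  classical
  induction J using Finset.induction_on with
  | empty =>
    rw [sum_empty]
    refine le_of_eq (sum_eq_zero fun z _ => ?_)
    have : ∀ x : Fin n → Bool, mix ∅ x z = x := fun x => by
      funext i
      simp [mix]
    simp [this]
  | insert j J hj ih =>
    rw [sum_insert hj]
    have h1 : ∀ x z : Fin n → Bool, mix (insert j J) x z = Function.update (mix J x z) j (z j) := by
      intro x z
      funext i
      unfold mix
      by_cases h : i = j
      · subst h
        simp
      · simp [h]
    have h2 : ∀ y z : Fin n → Bool, (if f y ≠ f (Function.update y j (z j)) then (1 : ℝ) else 0) ≤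
        if f (Function.update y j true) ≠ f (Function.update y j false) then 1 else 0 := by
      intro y z
      by_cases h : f y ≠ f (Function.update y j (z j))
      · rw [if_pos h, if_pos]
        intro h3
        apply h
        have h4 : f y = f (Function.update y j (y j)) := by rw [Function.update_eq_self]
        rw [h4]
        cases y j <;> cases z j <;> first | rfl | exact h3 | exact h3.symm
      · rw [if_neg h]
        split_ifs <;> norm_num
    have h3 : ∀ x z : Fin n → Bool, (if f x ≠ f (mix (insert j J) x z) then (1 : ℝ) else 0) ≤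
        (if f x ≠ f (mix J x z) then 1 else 0) +
        (if f (Function.update (mix J x z) j true) ≠ f (Function.update (mix J x z) j false)
          then 1 else 0) := by
      intro x z
      refine le_trans ?_ (add_le_add le_rfl (h2 (mix J x z) z))
      rw [h1]
      by_cases h : f x = f (mix J x z)
      · rw [h]
        simp
      · rw [if_pos h]
        have : (0 : ℝ) ≤ if f (mix J x z) ≠ f (Function.update (mix J x z) j (z j)) then 1 else 0 := by
          split_ifs <;> norm_num
        split_ifs <;> linarith
    have h4 : ∑ z, wp p z * ∑ x, wp p x * (if f (Function.update (mix J x z) j true) ≠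
        f (Function.update (mix J x z) j false) then (1 : ℝ) else 0) = inf p f j := by
      unfold inf
      rw [← sum_mix p J fun y => if f (Function.update y j true) ≠ f (Function.update y j false)
        then 1 else 0, sum_comm]
      refine sum_congr rfl fun z _ => ?_
      rw [mul_sum]
      refine sum_congr rfl fun x _ => ?_
      ring
    calc ∑ z, wp p z * ∑ x, wp p x * (if f x ≠ f (mix (insert j J) x z) then (1 : ℝ) else 0) ≤
        ∑ z, wp p z * ∑ x, wp p x * ((if f x ≠ f (mix J x z) then (1 : ℝ) else 0) +
        (if f (Function.update (mix J x z) j true) ≠ f (Function.update (mix J x z) j false)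
          then 1 else 0)) :=
          sum_le_sum fun z _ => mul_le_mul_of_nonneg_left (sum_le_sum fun x _ =>
            mul_le_mul_of_nonneg_left (h3 x z) (wp_nonneg hp x)) (wp_nonneg hp z)
      _ = ∑ z, wp p z * (∑ x, wp p x * (if f x ≠ f (mix J x z) then (1 : ℝ) else 0)) + inf p f j := by
          rw [← h4, ← sum_add_distrib]
          refine sum_congr rfl fun z _ => ?_
          rw [← mul_add, ← sum_add_distrib]
          congr 1
          refine sum_congr rfl fun x _ => ?_
          ring
      _ ≤ inf p f j + ∑ j ∈ J, inf p f j := by linarith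

theorem exists_fix {p : Fin n → ℝ} (hp : ∀ i, 0 ≤ p i ∧ p i ≤ 1) (f : (Fin n → Bool) → Bool)
    (J : Finset (Fin n)) :
    ∃ z, ∑ x, wp p x * (if f x ≠ f (mix J x z) then 1 else 0) ≤ ∑ j ∈ J, inf p f j := by
  by_contra hcon
  push Not at hcon
  have h1 := sum_fix_le hp f J
  have h2 : ∑ z, wp p z * ∑ j ∈ J, inf p f j < ∑ z, wp p z * ∑ x, wp p x *
      (if f x ≠ f (mix J x z) then 1 else 0) := by
    refine sum_lt_sum (fun z _ => mul_le_mul_of_nonneg_left (hcon z).le (wp_nonneg hp z)) ?_
    obtain ⟨z, -, hz⟩ : ∃ z ∈ (univ : Finset (Fin n → Bool)), 0 < wp p z := by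
      by_contra h3
      push Not at h3
      have := sum_nonpos h3
      rw [wp_sum] at this
      linarith
    exact ⟨z, mem_univ _, mul_lt_mul_of_pos_left (hcon z) hz⟩
  rw [← sum_mul, wp_sum, one_mul] at h2
  linarith

/-! ### Influences of DNF formulas -/

/-- The variables of a term. -/
def vars (n : ℕ) (T : Term) : Finset (Fin n) :=
  univ.filter fun i => ((i : ℕ), true) ∈ T ∨ ((i : ℕ), false) ∈ T

/-- The value of a formula on the cube. -/
def val (F : Dnf) (x : Fin n → Bool) : Bool := dnfSat F (List.ofFn x)

theorem litSat_update {x : Fin n → Bool} {j : Fin n} {b : Bool} {l : Lit} (h : l.1 ≠ j) :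
    litSat (List.ofFn (Function.update x j b)) l = litSat (List.ofFn x) l := by
  obtain ⟨i, c⟩ := l
  by_cases hi : i < n
  · have h1 := litSat_ofFn (Function.update x j b) ⟨i, hi⟩ c
    have h2 := litSat_ofFn x ⟨i, hi⟩ c
    simp only at h1 h2
    rw [h1, h2, Function.update_of_ne]
    intro hcon
    apply h
    rw [← hcon]
  · have h1 : ∀ y : Fin n → Bool, litSat (List.ofFn y) (i, c) = false := by
      intro y
      by_contra hcon
      rw [Bool.not_eq_false] at hcon
      exact hi (litSat_lt y _ hcon)
    rw [h1, h1]

theorem pivotal {F : Dnf} {x : Fin n → Bool} {j : Fin n}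
    (h : val F (Function.update x j true) ≠ val F (Function.update x j false)) :
    ∃ T ∈ F, j ∈ vars n T ∧ ∀ l ∈ T, l.1 ≠ j → litSat (List.ofFn x) l = true := by
  obtain ⟨b, h1, h2⟩ : ∃ b, val F (Function.update x j b) = true ∧
      val F (Function.update x j (!b)) = false := by
    cases h3 : val F (Function.update x j true)
    · refine ⟨false, ?_, h3⟩
      rw [h3] at h
      cases h4 : val F (Function.update x j false)
      · exact absurd h4.symm h
      · rfl
    · refine ⟨true, h3, ?_⟩
      rw [h3] at h
      cases h4 : val F (Function.update x j false)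
      · exact h4
      · exact absurd h4.symm h
  unfold val dnfSat at h1 h2
  rw [List.any_eq_true] at h1
  obtain ⟨T, hT, hTs⟩ := h1
  rw [List.any_eq_false] at h2
  have h3 := h2 T hT
  unfold termSat at hTs h3
  rw [List.all_eq_true] at hTs h3
  refine ⟨T, hT, ?_, fun l hl hne => ?_⟩
  · by_contra hj
    apply h3
    intro l hl
    have hne : l.1 ≠ j := by
      intro he
      apply hj
      unfold vars
      rw [mem_filter]
      refine ⟨mem_univ _, ?_⟩
      obtain ⟨i, c⟩ := l
      simp only at he
      subst he
      cases c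
      · exact Or.inr hl
      · exact Or.inl hl
    rw [litSat_update hne]
    have := hTs l hl
    rwa [litSat_update hne] at this
  · have := hTs l hl
    rwa [litSat_update hne] at this

theorem inf_le {a : ℕ} {p : Fin n → ℝ} (ha : 2 ≤ a) (hp : ∀ i, 1 / (a : ℝ) ≤ p i ∧ p i ≤ 1 - 1 / a)
    (F : Dnf) (j : Fin n) :
    inf p (val F) j ≤
      (F.map fun T => if j ∈ vars n T then (1 - 1 / (a : ℝ)) ^ ((vars n T).card - 1) else 0).sum := by
  classical
  have h0 : (0 : ℝ) ≤ 1 / a := by positivity
  have hp' : ∀ i, 0 ≤ p i ∧ p i ≤ 1 := fun i => ⟨h0.trans (hp i).1, by have := (hp i).2; linarith⟩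
  -- the event of a term
  have h1 : ∀ x : Fin n → Bool, (if val F (Function.update x j true) ≠
      val F (Function.update x j false) then (1 : ℝ) else 0) ≤
      (F.map fun T => if j ∈ vars n T ∧ ∀ l ∈ T, l.1 ≠ j → litSat (List.ofFn x) l = true
        then (1 : ℝ) else 0).sum := by
    intro x
    have hnn : ∀ y ∈ (F.map fun T => if j ∈ vars n T ∧ ∀ l ∈ T, l.1 ≠ j →
        litSat (List.ofFn x) l = true then (1 : ℝ) else 0), 0 ≤ y := by
      intro y hy
      obtain ⟨T, -, rfl⟩ := List.mem_map.1 hy
      split_ifs <;> norm_num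
    split_ifs with h
    · obtain ⟨T, hT, hj, hl⟩ := pivotal h
      refine le_trans ?_ (List.single_le_sum hnn _ (List.mem_map.2 ⟨T, hT, rfl⟩))
      rw [if_pos ⟨hj, hl⟩]
    · exact List.sum_nonneg hnn
  have h2 : ∀ T : Term, ∑ x, wp p x * (if j ∈ vars n T ∧ ∀ l ∈ T, l.1 ≠ j →
      litSat (List.ofFn x) l = true then (1 : ℝ) else 0) ≤
      if j ∈ vars n T then (1 - 1 / (a : ℝ)) ^ ((vars n T).card - 1) else 0 := by
    intro T
    by_cases hj : j ∈ vars n T
    · rw [if_pos hj]
      simp only [hj, true_and]
      have h3 := prob_fix_le hp ((vars n T).erase j) fun i => decide (((i : ℕ), true) ∈ T)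
      rw [card_erase_of_mem hj] at h3
      refine le_trans (sum_le_sum fun x _ => mul_le_mul_of_nonneg_left ?_ (wp_nonneg hp' x)) h3
      by_cases hx : ∀ l ∈ T, l.1 ≠ j → litSat (List.ofFn x) l = true
      · rw [if_pos hx, if_pos]
        intro i hi
        rw [mem_erase] at hi
        obtain ⟨hij, hi⟩ := hi
        have hij' : (i : ℕ) ≠ j := fun h => hij (Fin.ext h)
        unfold vars at hi
        rw [mem_filter] at hi
        by_cases ht : ((i : ℕ), true) ∈ T
        · have := hx _ ht hij'
          rw [litSat_ofFn, decide_eq_true_eq] at this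
          rw [this, eq_comm, decide_eq_true_eq]
          exact ht
        · have h4 : ((i : ℕ), false) ∈ T := hi.2.resolve_left ht
          have := hx _ h4 hij'
          rw [litSat_ofFn, decide_eq_true_eq] at this
          rw [this, eq_comm, decide_eq_false_iff_not]
          exact ht
      · rw [if_neg hx]
        split_ifs <;> norm_num
    · simp [hj]
  have h3 : ∀ (G : Dnf), ∑ x, wp p x * (G.map fun T => if j ∈ vars n T ∧ ∀ l ∈ T, l.1 ≠ j →
      litSat (List.ofFn x) l = true then (1 : ℝ) else 0).sum ≤
      (G.map fun T => if j ∈ vars n T then (1 - 1 / (a : ℝ)) ^ ((vars n T).card - 1) else 0).sum := by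
    intro G
    induction G with
    | nil => simp
    | cons T G ih =>
      simp only [List.map_cons, List.sum_cons, mul_add, sum_add_distrib]
      exact add_le_add (h2 T) ih
  unfold inf
  exact (sum_le_sum fun x _ => mul_le_mul_of_nonneg_left (h1 x) (wp_nonneg hp' x)).trans (h3 F)

/-- The variables of the short terms. -/
def short (n L : ℕ) (F : Dnf) : Finset (Fin n) :=
  univ.filter fun j => ∃ T ∈ F, (vars n T).card ≤ L ∧ j ∈ vars n T

theorem short_card (n L : ℕ) (F : Dnf) : (short n L F).card ≤ F.length * L := by
  classical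
  induction F with
  | nil => simp [short]
  | cons T F ih =>
    have h1 : short n L (T :: F) ⊆ (if (vars n T).card ≤ L then vars n T else ∅) ∪ short n L F := by
      intro j hj
      unfold short at hj
      rw [mem_filter] at hj
      obtain ⟨-, T', hT', hc, hj'⟩ := hj
      rw [mem_union]
      rw [List.mem_cons] at hT'
      rcases hT' with rfl | hT'
      · left
        rw [if_pos hc]
        exact hj'
      · right
        unfold short
        rw [mem_filter]
        exact ⟨mem_univ _, T', hT', hc, hj'⟩
    refine (card_le_card h1).trans ((card_union_le _ _).trans ?_)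
    have h2 : (if (vars n T).card ≤ L then vars n T else ∅).card ≤ L := by
      split_ifs with h
      · exact h
      · simp
    rw [List.length_cons, add_mul, one_mul]
    omega

/-- Variables which are only in long terms have small influence. -/
theorem inf_le_long {a s L : ℕ} {p : Fin n → ℝ} (ha : 2 ≤ a)
    (hp : ∀ i, 1 / (a : ℝ) ≤ p i ∧ p i ≤ 1 - 1 / a) {F : Dnf} (hs : F.length ≤ s) {j : Fin n}
    (hj : j ∉ short n L F) : inf p (val F) j ≤ s * (1 - 1 / (a : ℝ)) ^ L := by
  have h2 : (2 : ℝ) ≤ a := by exact_mod_cast ha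
  have h0 : (0 : ℝ) ≤ 1 / a := by positivity
  have h3 : 1 / (a : ℝ) ≤ 1 / 2 := one_div_le_one_div_of_le (by norm_num) h2
  refine (inf_le ha hp F j).trans ?_
  have h4 : ∀ y ∈ (F.map fun T => if j ∈ vars n T then (1 - 1 / (a : ℝ)) ^ ((vars n T).card - 1)
      else 0), y ≤ (1 - 1 / (a : ℝ)) ^ L := by
    intro y hy
    obtain ⟨T, hT, rfl⟩ := List.mem_map.1 hy
    split_ifs with h
    · apply pow_le_pow_of_le_one (by linarith) (by linarith)
      by_contra hcon
      apply hj
      unfold short
      rw [mem_filter]
      exact ⟨mem_univ _, T, hT, by omega, h⟩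
    · exact pow_nonneg (by linarith) _
  have h5 := List.sum_le_card_nsmul _ _ h4
  rw [List.length_map, nsmul_eq_mul] at h5
  refine h5.trans (mul_le_mul_of_nonneg_right ?_ (pow_nonneg (by linarith) _))
  exact_mod_cast hs

/-! ### Unate formulas: influences and correlations -/

/-- Every variable occurs in the formula with one sign only. -/
def Unate (F : Dnf) : Prop := ∃ σ : ℕ → Bool, ∀ T ∈ F, ∀ l ∈ T, l.2 = σ l.1

theorem unate_mono {F : Dnf} {σ : ℕ → Bool} (h : ∀ T ∈ F, ∀ l ∈ T, l.2 = σ l.1) (x : Fin n → Bool)
    (j : Fin n) (hv : val F (Function.update x j (!σ j)) = true) :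
    val F (Function.update x j (σ j)) = true := by
  unfold val dnfSat at hv ⊢
  rw [List.any_eq_true] at hv ⊢
  obtain ⟨T, hT, hTs⟩ := hv
  refine ⟨T, hT, ?_⟩
  unfold termSat at hTs ⊢
  rw [List.all_eq_true] at hTs ⊢
  intro l hl
  by_cases hne : l.1 = j
  · have h1 := h T hT l hl
    obtain ⟨i, c⟩ := l
    simp only at hne h1
    subst hne
    rw [litSat_ofFn, decide_eq_true_eq, Function.update_self]
    exact h1.symm
  · have := hTs l hl
    rw [litSat_update hne] at this ⊢
    exact this

/-- The indicator of a bit. -/
noncomputable def ind (b : Bool) : ℝ := if b = true then 1 else 0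

/-- The mean of the product of the differences of the label and of the coordinate `j` for two
independent points. -/
noncomputable def mu (p : Fin n → ℝ) (f : (Fin n → Bool) → Bool) (j : Fin n) : ℝ :=
  ∑ x, wp p x * ∑ y, wp p y * ((ind (f x) - ind (f y)) * (ind (x j) - ind (y j)))

theorem mu_eq (p : Fin n → ℝ) (f : (Fin n → Bool) → Bool) (j : Fin n) :
    mu p f j = 2 * (p j * (1 - p j)) * ((∑ x, wp p x * ind (f (Function.update x j true))) -
      ∑ x, wp p x * ind (f (Function.update x j false))) := by
  have h1 : ∀ x : Fin n → Bool, ∑ y, wp p y * ((ind (f x) - ind (f y)) * (ind (x j) - ind (y j))) =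
      ind (f x) * ind (x j) - ind (f x) * p j - ind (x j) * (∑ y, wp p y * ind (f y)) +
        ∑ y, wp p y * (ind (f y) * ind (y j)) := by
    intro x
    have h2 : ∑ y, wp p y * ind (y j) = p j := by
      rw [sum_coord p j ind]
      simp [ind]
    have h3 : ∀ y, wp p y * ((ind (f x) - ind (f y)) * (ind (x j) - ind (y j))) =
        (ind (f x) * ind (x j)) * wp p y - ind (f x) * (wp p y * ind (y j)) -
        ind (x j) * (wp p y * ind (f y)) + wp p y * (ind (f y) * ind (y j)) := fun y => by ring
    rw [sum_congr rfl fun y _ => h3 y, sum_add_distrib, sum_sub_distrib, sum_sub_distrib,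
      ← mul_sum, ← mul_sum, ← mul_sum, wp_sum, h2, mul_one]
  have h4 : mu p f j = 2 * ((∑ y, wp p y * (ind (f y) * ind (y j))) -
      p j * ∑ y, wp p y * ind (f y)) := by
    unfold mu
    rw [sum_congr rfl fun x _ => by rw [h1 x]]
    have h2 : ∑ y, wp p y * ind (y j) = p j := by
      rw [sum_coord p j ind]
      simp [ind]
    have h3 : ∀ x, wp p x * (ind (f x) * ind (x j) - ind (f x) * p j -
        ind (x j) * (∑ y, wp p y * ind (f y)) + ∑ y, wp p y * (ind (f y) * ind (y j))) =
        wp p x * (ind (f x) * ind (x j)) - p j * (wp p x * ind (f x)) -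
        (∑ y, wp p y * ind (f y)) * (wp p x * ind (x j)) +
        (∑ y, wp p y * (ind (f y) * ind (y j))) * wp p x := fun x => by ring
    rw [sum_congr rfl fun x _ => h3 x, sum_add_distrib, sum_sub_distrib, sum_sub_distrib,
      ← mul_sum, ← mul_sum, ← mul_sum, wp_sum, h2]
    ring
  have h5 := sum_update p j fun y => ind (f y) * ind (y j)
  have h6 := sum_update p j fun y => ind (f y)
  simp only [Function.update_self] at h5 h6
  have e1 : ind true = 1 := by simp [ind]
  have e2 : ind false = 0 := by simp [ind]
  simp only [e1, e2, mul_one, mul_zero, sum_const_zero, add_zero] at h5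
  rw [h4, h5, h6]
  ring

theorem abs_mu {F : Dnf} (hF : Unate F) {p : Fin n → ℝ} (hp : ∀ i, 0 ≤ p i ∧ p i ≤ 1) (j : Fin n) :
    |mu p (val F) j| = 2 * (p j * (1 - p j)) * inf p (val F) j := by
  obtain ⟨σ, hσ⟩ := hF
  have h0 : 0 ≤ 2 * (p j * (1 - p j)) := by
    have := hp j
    have h1 : 0 ≤ 1 - p j := by linarith
    have := mul_nonneg this.1 h1
    linarith
  rw [mu_eq, abs_mul, abs_of_nonneg h0]
  congr 1
  have h1 : inf p (val F) j = (∑ x, wp p x * ind (val F (Function.update x j (σ j)))) -
      ∑ x, wp p x * ind (val F (Function.update x j (!σ j))) := by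
    unfold inf
    rw [← sum_sub_distrib]
    refine sum_congr rfl fun x _ => ?_
    rw [← mul_sub]
    congr 1
    have h2 := unate_mono hσ x j
    cases h3 : σ j
    · rw [h3] at h2
      simp only [Bool.not_false] at h2 ⊢
      cases h4 : val F (Function.update x j true) <;> cases h5 : val F (Function.update x j false) <;>
        simp_all [ind]
    · rw [h3] at h2
      simp only [Bool.not_true] at h2 ⊢
      cases h4 : val F (Function.update x j true) <;> cases h5 : val F (Function.update x j false) <;>
        simp_all [ind]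
  have h2 := inf_nonneg hp (val F) j
  cases h3 : σ j
  · rw [h3] at h1
    simp only [Bool.not_false] at h1
    rw [← neg_sub, ← h1, abs_neg, abs_of_nonneg h2]
  · rw [h3] at h1
    simp only [Bool.not_true] at h1
    rw [← h1, abs_of_nonneg h2]

end Pool.Agent.N587.DM
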