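import Pool.Agent.N587.DM.Inf
import Pool.Agent.N587.DL.Main

/-!
# Restriction of the examples to the selected variables
-/

set_option autoImplicit false

namespace Pool.Agent.N587.DM

open Finset Pool.Agent.N587.DL

/-- The coordinates of a point which are in the list `V`. -/
def proj (V : List ℕ) (x : List Bool) : List Bool := V.map fun j => decide (x[j]? = some true)

/-- The restricted example. -/
def projEx (V : List ℕ) (z : Ex) : Ex := (proj V z.1, z.2)

/-- The literal of the original variables. -/
def relab (N : ℕ) (V : List ℕ) (l : Lit) : Lit := ((V[l.1]?).getD N, l.2)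

/-- The formula in the original variables. -/
def relabel (N : ℕ) (V : List ℕ) (H : Dnf) : Dnf := H.map fun T => T.map (relab N V)

/-- The term survives if its literals outside of `V` are true at `z`. -/
def alive (V : List ℕ) (z : List Bool) (T : Term) : Bool :=
  T.all fun l => decide (l.1 ∈ V) || litSat z l

/-- The restriction of a term to the variables in `V`. -/
def cut (V : List ℕ) (T : Term) : Term :=
  (T.filter fun l => decide (l.1 ∈ V)).map fun l => (V.idxOf l.1, l.2)

/-- The restriction of a formula to the variables in `V`, the others are given by `z`. -/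
def restr (V : List ℕ) (z : List Bool) (F : Dnf) : Dnf := (F.filter (alive V z)).map (cut V)

theorem restr_length (V : List ℕ) (z : List Bool) (F : Dnf) : (restr V z F).length ≤ F.length := by
  unfold restr
  rw [List.length_map]
  exact List.length_filter_le _ _

variable {n : ℕ} {V : List ℕ}

/-- The selected variables. -/
def vv (hV : ∀ j ∈ V, j < n) (i : Fin V.length) : Fin n := ⟨V[i], hV _ (List.getElem_mem _)⟩

theorem vv_inj (hV : ∀ j ∈ V, j < n) (hnd : V.Nodup) : Function.Injective (vv hV) := by
  intro i k h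
  unfold vv at h
  rw [Fin.mk.injEq] at h
  exact Fin.ext ((List.Nodup.getElem_inj_iff hnd).1 h)

theorem proj_ofFn (hV : ∀ j ∈ V, j < n) (x : Fin n → Bool) :
    proj V (List.ofFn x) = List.ofFn fun i => x (vv hV i) := by
  unfold proj
  apply List.ext_getElem
  · simp
  · intro i h1 h2
    rw [List.getElem_map, List.getElem_ofFn]
    have h3 : i < V.length := by simpa using h1
    have h4 : V[i] < n := hV _ (List.getElem_mem _)
    unfold vv
    simp [h4]

theorem litSat_relab (hV : ∀ j ∈ V, j < n) (x : Fin n → Bool) (l : Lit) :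
    litSat (List.ofFn x) (relab n V l) = litSat (proj V (List.ofFn x)) l := by
  obtain ⟨i, b⟩ := l
  unfold relab
  by_cases hi : i < V.length
  · have h4 : V[i] < n := hV _ (List.getElem_mem _)
    have h5 : (V[(i, b).1]?).getD n = ((⟨V[i], h4⟩ : Fin n) : ℕ) := by
      simp [hi]
    rw [h5, litSat_ofFn, proj_ofFn hV]
    have h6 := litSat_ofFn (fun i => x (vv hV i)) ⟨i, hi⟩ b
    simp only at h6
    rw [h6]
    rfl
  · have h5 : (V[(i, b).1]?).getD n = n := by
      simp [List.getElem?_eq_none (not_lt.1 hi)]
    rw [h5]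
    unfold litSat
    rw [List.getElem?_eq_none (by simp), List.getElem?_eq_none (by simpa [proj] using hi)]

theorem dnfSat_relabel (hV : ∀ j ∈ V, j < n) (x : Fin n → Bool) (H : Dnf) :
    dnfSat (relabel n V H) (List.ofFn x) = dnfSat H (List.ofFn fun i => x (vv hV i)) := by
  unfold dnfSat relabel
  rw [List.any_map]
  congr 1
  funext T
  simp only [Function.comp_apply]
  unfold termSat
  rw [List.all_map]
  congr 1
  funext l
  simp only [Function.comp_apply]
  rw [litSat_relab hV, proj_ofFn hV]

/-- The coordinates outside of `V`. -/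
def outs (n : ℕ) (V : List ℕ) : Finset (Fin n) := univ.filter fun i => (i : ℕ) ∉ V

theorem dnfSat_restr (hV : ∀ j ∈ V, j < n) (x z : Fin n → Bool) (F : Dnf) :
    dnfSat (restr V (List.ofFn z) F) (List.ofFn fun i => x (vv hV i)) =
      dnfSat F (List.ofFn (mix (outs n V) x z)) := by
  -- a term
  have hlit : ∀ l : Lit, l.1 ∈ V → litSat (List.ofFn fun i => x (vv hV i)) (V.idxOf l.1, l.2) =
      litSat (List.ofFn (mix (outs n V) x z)) l := by
    rintro ⟨i, b⟩ hi
    have h1 : V.idxOf i < V.length := List.idxOf_lt_length_iff.2 hi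
    have h2 := litSat_ofFn (fun i => x (vv hV i)) ⟨V.idxOf i, h1⟩ b
    have h3 := litSat_ofFn (mix (outs n V) x z) ⟨i, hV i hi⟩ b
    simp only at h2 h3 ⊢
    rw [h2, h3]
    congr 2
    unfold vv mix outs
    simp only [mem_filter, mem_univ, true_and]
    rw [if_neg (not_not.2 hi)]
    congr 1
    exact Fin.ext (List.getElem_idxOf h1)
  have hlit2 : ∀ l : Lit, l.1 ∉ V → litSat (List.ofFn z) l =
      litSat (List.ofFn (mix (outs n V) x z)) l := by
    rintro ⟨i, b⟩ hi
    by_cases hn : i < n
    · have h2 := litSat_ofFn z ⟨i, hn⟩ b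
      have h3 := litSat_ofFn (mix (outs n V) x z) ⟨i, hn⟩ b
      simp only at h2 h3 hi ⊢
      rw [h2, h3]
      congr 2
      unfold mix outs
      simp only [mem_filter, mem_univ, true_and]
      rw [if_pos hi]
    · have h1 : ∀ y : Fin n → Bool, litSat (List.ofFn y) (i, b) = false := by
        intro y
        by_contra hcon
        rw [Bool.not_eq_false] at hcon
        exact hn (litSat_lt y _ hcon)
      rw [h1, h1]
  have hterm : ∀ T : Term, (alive V (List.ofFn z) T = true ∧
      termSat (List.ofFn fun i => x (vv hV i)) (cut V T) = true) ↔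
      termSat (List.ofFn (mix (outs n V) x z)) T = true := by
    intro T
    unfold alive termSat cut
    rw [List.all_eq_true, List.all_eq_true, List.all_eq_true]
    constructor
    · rintro ⟨h1, h2⟩ l hl
      by_cases hm : l.1 ∈ V
      · rw [← hlit l hm]
        refine h2 _ (List.mem_map.2 ⟨l, List.mem_filter.2 ⟨hl, by simpa using hm⟩, rfl⟩)
      · rw [← hlit2 l hm]
        have := h1 l hl
        simpa [hm] using this
    · intro h
      refine ⟨fun l hl => ?_, fun l' hl' => ?_⟩
      · by_cases hm : l.1 ∈ V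
        · simp [hm]
        · rw [hlit2 l hm, h l hl]
          simp
      · obtain ⟨l, hl, rfl⟩ := List.mem_map.1 hl'
        rw [List.mem_filter, decide_eq_true_eq] at hl
        rw [hlit l hl.2]
        exact h l hl.1
  rw [Bool.eq_iff_iff]
  unfold dnfSat restr
  rw [List.any_eq_true, List.any_eq_true]
  constructor
  · rintro ⟨T', hT', hs⟩
    obtain ⟨T, hT, rfl⟩ := List.mem_map.1 hT'
    rw [List.mem_filter] at hT
    exact ⟨T, hT.1, (hterm T).1 ⟨hT.2, hs⟩⟩
  · rintro ⟨T, hT, hs⟩
    have h := (hterm T).2 hs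
    exact ⟨cut V T, List.mem_map.2 ⟨T, List.mem_filter.2 ⟨hT, h.1⟩, rfl⟩, h.2⟩

/-- The error of the relabelled hypothesis. -/
theorem err_relabel (hV : ∀ j ∈ V, j < n) (hnd : V.Nodup) {p : Fin n → ℝ}
    (hp : ∀ i, 0 ≤ p i ∧ p i ≤ 1) (F : Dnf) (z : Fin n → Bool) (H : Dnf) :
    err F (wp p) (relabel n V H) ≤
      err (restr V (List.ofFn z) F) (wp fun i => p (vv hV i)) H +
      ∑ x, wp p x * (if val F x ≠ val F (mix (outs n V) x z) then 1 else 0) := by
  have h1 : err (restr V (List.ofFn z) F) (wp fun i => p (vv hV i)) H = ∑ y, wp (fun i => p (vv hV i)) y *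
      (if dnfSat H (List.ofFn y) ≠ dnfSat (restr V (List.ofFn z) F) (List.ofFn y) then 1 else 0) := by
    unfold err
    refine sum_congr rfl fun y _ => ?_
    split_ifs <;> simp
  rw [h1, ← sum_comp_inj p (vv hV) (vv_inj hV hnd) fun y => if dnfSat H (List.ofFn y) ≠
    dnfSat (restr V (List.ofFn z) F) (List.ofFn y) then (1 : ℝ) else 0, ← sum_add_distrib]
  unfold err
  refine sum_le_sum fun x _ => ?_
  rw [dnfSat_relabel hV, dnfSat_restr hV, ← mul_add]
  have h0 := wp_nonneg hp x
  unfold val
  cases dnfSat F (List.ofFn x) <;> cases dnfSat H (List.ofFn fun i => x (vv hV i)) <;>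
    cases dnfSat F (List.ofFn (mix (outs n V) x z)) <;> simp [h0]

/-- The samples of the restricted problem. -/
theorem exL_proj (hV : ∀ j ∈ V, j < n) (hnd : V.Nodup) {p : Fin n → ℝ}
    (hp : ∀ i, 0 ≤ p i ∧ p i ≤ 1) (F : Dnf) (z : Fin n → Bool) (η : ℝ)
    (hη : ∑ x, wp p x * (if val F x ≠ val F (mix (outs n V) x z) then 1 else 0) ≤ η) :
    ∀ (m : ℕ) (G : List Ex → ℝ), (∀ l, 0 ≤ G l ∧ G l ≤ 1) →
      exL (Ew F (wp p)) m (fun S => G (S.map (projEx V))) ≤
        exL (Ew (restr V (List.ofFn z) F) (wp fun i => p (vv hV i))) m G + m * η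
  | 0, G, hG => by simp [exL_zero]
  | m + 1, G, hG => by
    have hE' : Pos (Ew (restr V (List.ofFn z) F) (wp fun i => p (vv hV i))) :=
      Ew_pos _ _ (wp_nonneg fun i => hp _)
    have hE'1 : Ew (restr V (List.ofFn z) F) (wp fun i => p (vv hV i)) (fun _ => 1) = 1 :=
      Ew_one _ _ (wp_sum _)
    rw [exL_succ, exL_succ]
    simp only [List.map_cons]
    have h1 : Ew F (wp p) (fun a => exL (Ew F (wp p)) m fun S => G (projEx V a :: S.map (projEx V))) ≤
        Ew F (wp p) (fun a => exL (Ew (restr V (List.ofFn z) F) (wp fun i => p (vv hV i))) m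
          (fun S => G (projEx V a :: S)) + m * η) :=
      (Ew_pos F _ (wp_nonneg hp)).mono _ _ fun a =>
        exL_proj hV hnd hp F z η hη m (fun S => G (projEx V a :: S)) fun l => hG _
    refine h1.trans ?_
    rw [(Ew_pos F _ (wp_nonneg hp)).add, (Ew_pos F _ (wp_nonneg hp)).const,
      Ew_one F _ (wp_sum p), mul_one]
    set G' : Ex → ℝ := fun a => exL (Ew (restr V (List.ofFn z) F) (wp fun i => p (vv hV i))) m
          (fun S => G (a :: S)) with hG'
    have hG'1 : ∀ a, 0 ≤ G' a ∧ G' a ≤ 1 := by
      intro a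
      refine ⟨(hE'.exL m).nonneg fun l => (hG _).1, ?_⟩
      rw [← exL_one hE' hE'1 m]
      exact (hE'.exL m).mono _ _ fun l => (hG _).2
    have h2 : Ew F (wp p) (fun a => G' (projEx V a)) ≤
        Ew (restr V (List.ofFn z) F) (wp fun i => p (vv hV i)) G' + η := by
      unfold Ew
      rw [← sum_comp_inj p (vv hV) (vv_inj hV hnd) fun y => G' (lab (restr V (List.ofFn z) F) y)]
      refine le_trans ?_ (add_le_add le_rfl hη)
      rw [← sum_add_distrib]
      refine sum_le_sum fun x _ => ?_
      rw [← mul_add]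
      refine mul_le_mul_of_nonneg_left ?_ (wp_nonneg hp x)
      have h3 : projEx V (lab F x) = (List.ofFn fun i => x (vv hV i), val F x) := by
        unfold projEx lab val
        rw [proj_ofFn hV]
      have h4 : lab (restr V (List.ofFn z) F) (fun i => x (vv hV i)) =
          (List.ofFn fun i => x (vv hV i), val F (mix (outs n V) x z)) := by
        unfold lab val
        rw [dnfSat_restr hV]
      beta_reduce
      rw [h3, h4]
      by_cases h5 : val F x = val F (mix (outs n V) x z)
      · rw [h5]
        simp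
      · rw [if_pos h5]
        have h6 := (hG'1 (List.ofFn fun i => x (vv hV i), val F x)).2
        have h7 := (hG'1 (List.ofFn fun i => x (vv hV i), val F (mix (outs n V) x z))).1
        linarith
    push_cast
    linarith

end Pool.Agent.N587.DM
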