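import Pool.Agent.N587.DM.Pairs
import Pool.Agent.N587.DM.Proj
import Pool.Agent.N587.DM.Arith

/-!
# The learner for unate formulas
-/

set_option autoImplicit false

namespace Pool.Agent.N587.DM

open Finset Pool.Agent.N587.DL

/-- The selected variables. -/
def selN (n t : ℕ) (S : List Ex) : List ℕ :=
  (List.range n).filter fun j => decide (j = 0) || big (t ^ 17) (pieces 2 (t ^ 31) S) j

/-- The hypothesis for the selected variables `V`. -/
def hyp (n a t : ℕ) (V : List ℕ) (S : List Ex) : Dnf :=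
  relabel n V (learnT (rr a V.length) t ((S.take (t ^ 6)).map (projEx V)))

/-- The learner, for examples with `n` coordinates. -/
def learnN (n a t : ℕ) (S : List Ex) : Dnf := hyp n a t (selN n t S) (S.drop (t ^ 31 * 2))

theorem selN_lt {n t : ℕ} {S : List Ex} : ∀ j ∈ selN n t S, j < n := by
  intro j hj
  unfold selN at hj
  rw [List.mem_filter, List.mem_range] at hj
  exact hj.1

theorem selN_nodup (n t : ℕ) (S : List Ex) : (selN n t S).Nodup := List.nodup_range.filter _

theorem selN_pos {n t : ℕ} (hn : 1 ≤ n) (S : List Ex) : 1 ≤ (selN n t S).length := by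
  have h : 0 ∈ selN n t S := by
    unfold selN
    rw [List.mem_filter, List.mem_range]
    exact ⟨hn, by simp⟩
  exact List.length_pos_of_mem h

section
variable {n s e d a t : ℕ} {F : Dnf} {p : Fin n → ℝ} {l : List Ex}

/-- Few variables are selected. -/
theorem selN_card (hF : Unate F) (hs : F.length ≤ s) (ha : 2 ≤ a)
    (hp : ∀ i, 1 / (a : ℝ) ≤ p i ∧ p i ≤ 1 - 1 / a) (hst : s ≤ t) (ht : 1 ≤ t)
    (hl : Acc F p (t ^ 31) (((t ^ 17 : ℕ) : ℝ) / 2) (pieces 2 (t ^ 31) l)) :
    (selN n t l).length ≤ s * (15 * a * (Nat.log 2 t + 1)) + 1 := by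
  classical
  have ht0 : (0 : ℝ) < t := by exact_mod_cast ht
  have hk : 0 < t ^ 31 := by positivity
  have h1 : (selN n t l).toFinset ⊆
      insert 0 ((short n (15 * a * (Nat.log 2 t + 1)) F).image Fin.val) := by
    intro j hj
    rw [List.mem_toFinset] at hj
    have hjn := selN_lt j hj
    unfold selN at hj
    rw [List.mem_filter, Bool.or_eq_true, decide_eq_true_eq] at hj
    rw [mem_insert, mem_image]
    rcases hj.2 with h0 | hb
    · exact Or.inl h0
    · right
      refine ⟨⟨j, hjn⟩, ?_, rfl⟩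
      by_contra hns
      have h2 := inf_of_big (j := ⟨j, hjn⟩) hF ha hp hk hl hb
      have h3 := inf_le_long ha hp hs hns
      have h4 := long_le ha ht
      have h5 : (s : ℝ) * (1 - 1 / (a : ℝ)) ^ (15 * a * (Nat.log 2 t + 1)) < 1 / (t : ℝ) ^ 14 := by
        have hs0 : (0 : ℝ) ≤ s := Nat.cast_nonneg _
        have hst' : (s : ℝ) ≤ t := by exact_mod_cast hst
        rcases Nat.eq_zero_or_pos s with hz | hz
        · rw [hz]
          simp only [Nat.cast_zero, zero_mul]
          positivity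
        · have hs1 : (0 : ℝ) < s := by exact_mod_cast hz
          calc (s : ℝ) * (1 - 1 / (a : ℝ)) ^ (15 * a * (Nat.log 2 t + 1)) < s * (1 / (t : ℝ) ^ 15) :=
                mul_lt_mul_of_pos_left h4 hs1
            _ ≤ t * (1 / (t : ℝ) ^ 15) := mul_le_mul_of_nonneg_right hst' (by positivity)
            _ = 1 / (t : ℝ) ^ 14 := by field_simp
      have h6 : (((t ^ 17 : ℕ) : ℝ)) / ((t ^ 31 : ℕ) : ℝ) = 1 / (t : ℝ) ^ 14 := by
        push_cast
        field_simp
      rw [h6] at h2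
      linarith
  have h2 : (selN n t l).length = (selN n t l).toFinset.card :=
    (List.toFinset_card_of_nodup (selN_nodup n t l)).symm
  rw [h2]
  refine (card_le_card h1).trans ((card_insert_le _ _).trans ?_)
  have h3 := (card_image_le (s := short n (15 * a * (Nat.log 2 t + 1)) F)
    (f := Fin.val)).trans (short_card n _ F)
  have h4 := Nat.mul_le_mul_right (15 * a * (Nat.log 2 t + 1)) hs
  omega

/-- The other variables have small total influence. -/
theorem outs_inf (hF : Unate F) (hs : F.length ≤ s) (ha : 2 ≤ a)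
    (hp : ∀ i, 1 / (a : ℝ) ≤ p i ∧ p i ≤ 1 - 1 / a) (ht : 1 ≤ t)
    (hl : Acc F p (t ^ 31) (((t ^ 17 : ℕ) : ℝ) / 2) (pieces 2 (t ^ 31) l)) :
    ∑ j ∈ outs n (selN n t l), inf p (val F) j ≤
      s * (15 * a * (Nat.log 2 t + 1)) * (2 * a * (1 / (t : ℝ) ^ 14)) + n * (s * (1 / (t : ℝ) ^ 15)) := by
  classical
  have ht0 : (0 : ℝ) < t := by exact_mod_cast ht
  have hk : 0 < t ^ 31 := by positivity
  set L := 15 * a * (Nat.log 2 t + 1) with hL
  have h6 : (((t ^ 17 : ℕ) : ℝ)) / ((t ^ 31 : ℕ) : ℝ) = 1 / (t : ℝ) ^ 14 := by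
    push_cast
    field_simp
  have h1 : ∀ j ∈ outs n (selN n t l), inf p (val F) j ≤
      (if j ∈ short n L F then 2 * a * (1 / (t : ℝ) ^ 14) else 0) + s * (1 / (t : ℝ) ^ 15) := by
    intro j hj
    have hnn : 0 ≤ (s : ℝ) * (1 / (t : ℝ) ^ 15) := by positivity
    have hb : big (t ^ 17) (pieces 2 (t ^ 31) l) j = false := by
      by_contra hcon
      rw [Bool.not_eq_false] at hcon
      unfold outs at hj
      rw [mem_filter] at hj
      apply hj.2
      unfold selN
      rw [List.mem_filter, List.mem_range, hcon]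
      exact ⟨j.2, by simp⟩
    by_cases hsh : j ∈ short n L F
    · rw [if_pos hsh]
      have h2 := inf_of_not_big hF ha hp hk hl hb
      rw [h6] at h2
      linarith
    · rw [if_neg hsh, zero_add]
      refine (inf_le_long ha hp hs hsh).trans ?_
      exact mul_le_mul_of_nonneg_left (long_le ha ht).le (Nat.cast_nonneg _)
  refine (sum_le_sum h1).trans ?_
  rw [sum_add_distrib]
  refine add_le_add ?_ ?_
  · calc ∑ j ∈ outs n (selN n t l), (if j ∈ short n L F then 2 * a * (1 / (t : ℝ) ^ 14) else 0) ≤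
          ∑ j : Fin n, (if j ∈ short n L F then 2 * a * (1 / (t : ℝ) ^ 14) else 0) :=
          sum_le_sum_of_subset_of_nonneg (subset_univ _) fun j _ _ => by
            split_ifs <;> positivity
      _ = (short n L F).card * (2 * a * (1 / (t : ℝ) ^ 14)) := by
          rw [← sum_filter, sum_const, nsmul_eq_mul]
          congr 3
          ext j
          simp
      _ ≤ s * (15 * a * (Nat.log 2 t + 1)) * (2 * a * (1 / (t : ℝ) ^ 14)) := by
          refine mul_le_mul_of_nonneg_right ?_ (by positivity)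
          have h2 := (short_card n L F).trans (Nat.mul_le_mul_right L hs)
          have h3 : ((short n L F).card : ℝ) ≤ (s * L : ℕ) := by exact_mod_cast h2
          refine h3.trans (le_of_eq ?_)
          rw [hL]
          push_cast
          ring
  · calc ∑ _j ∈ outs n (selN n t l), (s : ℝ) * (1 / (t : ℝ) ^ 15) ≤
          ∑ _j : Fin n, (s : ℝ) * (1 / (t : ℝ) ^ 15) :=
          sum_le_sum_of_subset_of_nonneg (subset_univ _) fun j _ _ => by positivity
      _ = n * (s * (1 / (t : ℝ) ^ 15)) := by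
          rw [sum_const, card_univ, Fintype.card_fin, nsmul_eq_mul]

/-- The second phase. -/
theorem inner (hn : 1 ≤ n) (hs1 : 1 ≤ s) (he : 1 ≤ e) (hd : 1 ≤ d) (ha : 2 ≤ a)
    (ht : BB n s e d ^ (6000 * a ^ 2) ≤ t) (hF : Unate F) (hs : F.length ≤ s)
    (hp : ∀ i, 1 / (a : ℝ) ≤ p i ∧ p i ≤ 1 - 1 / a)
    (hl : Acc F p (t ^ 31) (((t ^ 17 : ℕ) : ℝ) / 2) (pieces 2 (t ^ 31) l)) (x : ℕ) :
    exL (Ew F (wp p)) (t ^ 6 + x)
      (fun S => if 1 / (e : ℝ) < err F (wp p) (hyp n a t (selN n t l) S) then 1 else 0) ≤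
      1 / (2 * d) := by
  have h0 : (0 : ℝ) ≤ 1 / a := by positivity
  have hp' : ∀ i, 0 ≤ p i ∧ p i ≤ 1 := fun i => ⟨h0.trans (hp i).1, by have := (hp i).2; linarith⟩
  have hE : Pos (Ew F (wp p)) := Ew_pos F _ (wp_nonneg hp')
  have hE1 : Ew F (wp p) (fun _ => 1) = 1 := Ew_one F _ (wp_sum p)
  have hB2 := BB_ge_two hn hs1 he hd
  have hBn := BB_ge_n hn hs1 he hd
  have hBs := BB_ge_s hn hs1 he hd
  have hBsed := BB_ge_sed hn hs1 he hd
  have htB := t_ge hn hs1 he hd ha ht
  obtain ⟨B, hB⟩ : ∃ B, B = BB n s e d := ⟨_, rfl⟩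
  rw [← hB] at hB2 hBn hBs hBsed htB
  have hBt : B ≤ t := by
    refine le_trans ?_ htB
    calc B = 1 * B ^ 1 := by ring
      _ ≤ 256 * a * B ^ 4 := Nat.mul_le_mul (by omega) (Nat.pow_le_pow_right (by omega) (by norm_num))
  have ht1 : 1 ≤ t := by omega
  have hst : s ≤ t := by omega
  obtain ⟨V, hV⟩ : ∃ V, V = selN n t l := ⟨_, rfl⟩
  have hVn : ∀ j ∈ V, j < n := by rw [hV]; exact selN_lt
  have hVd : V.Nodup := by rw [hV]; exact selN_nodup n t l
  have hV1 : 1 ≤ V.length := by rw [hV]; exact selN_pos hn l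
  have hVc : V.length ≤ s * (15 * a * (Nat.log 2 t + 1)) + 1 := by
    rw [hV]; exact selN_card hF hs ha hp hst ht1 hl
  have hη := outs_inf (n := n) (t := t) hF hs ha hp ht1 hl
  rw [← hV] at hη ⊢
  obtain ⟨η, hηe⟩ : ∃ η, η = s * (15 * a * ((Nat.log 2 t : ℝ) + 1)) * (2 * a * (1 / (t : ℝ) ^ 14)) +
    n * (s * (1 / (t : ℝ) ^ 15)) := ⟨_, rfl⟩
  rw [← hηe] at hη
  have ht0 : (0 : ℝ) < t := by exact_mod_cast ht1
  have hd0 : (0 : ℝ) < d := by exact_mod_cast hd
  have he0 : (0 : ℝ) < e := by exact_mod_cast he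
  -- the total influence is tiny
  have hηt : (t : ℝ) ^ 6 * η ≤ 1 / (4 * d) := by
    have h1 : (Nat.log 2 t : ℝ) + 1 ≤ t := by
      have : Nat.log 2 t + 1 ≤ t := Nat.log_lt_self 2 (by omega)
      exact_mod_cast this
    have h2 : (t : ℝ) ^ 6 * η ≤ (30 * a ^ 2 * s) / t ^ 7 + (n * s) / t ^ 9 := by
      rw [hηe]
      have e1 : (30 * (a : ℝ) ^ 2 * s) / t ^ 7 = t ^ 6 * (s * (15 * a * t) * (2 * a * (1 / (t : ℝ) ^ 14))) := by
        field_simp
        ring
      have e2 : ((n : ℝ) * s) / t ^ 9 = t ^ 6 * (n * (s * (1 / (t : ℝ) ^ 15))) := by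
        field_simp
      rw [e1, e2, ← mul_add]
      gcongr
    have h3 : (30 * (a : ℝ) ^ 2 * s) / t ^ 7 ≤ 1 / (8 * d) := by
      rw [div_le_div_iff₀ (by positivity) (by positivity)]
      have g1 : 240 * a ^ 2 * (s * d) ≤ t ^ 7 := by
        have g2 : 256 * a ≤ t := by
          refine le_trans ?_ htB
          calc 256 * a = 256 * a * 1 := by ring
            _ ≤ 256 * a * B ^ 4 := Nat.mul_le_mul_left _ (Nat.one_le_pow _ _ (by omega))
        have g3 : s * d ≤ B := by
          refine le_trans ?_ hBsed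
          calc s * d = s * 1 * d := by ring
            _ ≤ s * e * d := by gcongr
        calc 240 * a ^ 2 * (s * d) ≤ (256 * a) * (256 * a) * B := by
              refine Nat.mul_le_mul ?_ g3
              nlinarith
          _ ≤ t * t * t := Nat.mul_le_mul (Nat.mul_le_mul g2 g2) hBt
          _ = t ^ 3 := by ring
          _ ≤ t ^ 7 := Nat.pow_le_pow_right (by omega) (by norm_num)
      have g4 : 240 * (a : ℝ) ^ 2 * (s * d) ≤ t ^ 7 := by exact_mod_cast g1
      linarith
    have h4 : ((n : ℝ) * s) / t ^ 9 ≤ 1 / (8 * d) := by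
      rw [div_le_div_iff₀ (by positivity) (by positivity)]
      have g1 : 8 * n * (s * d) ≤ t ^ 9 := by
        have g3 : s * d ≤ B := by
          refine le_trans ?_ hBsed
          calc s * d = s * 1 * d := by ring
            _ ≤ s * e * d := by gcongr
        have g2 : 8 ≤ t := by
          refine le_trans ?_ htB
          have : 1 ≤ B ^ 4 := Nat.one_le_pow _ _ (by omega)
          nlinarith
        calc 8 * n * (s * d) ≤ t * t * t := by
              exact Nat.mul_le_mul (Nat.mul_le_mul g2 (hBn.trans hBt)) (g3.trans hBt)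
          _ = t ^ 3 := by ring
          _ ≤ t ^ 9 := Nat.pow_le_pow_right (by omega) (by norm_num)
      have g4 : 8 * (n : ℝ) * (s * d) ≤ t ^ 9 := by exact_mod_cast g1
      linarith
    have h5 : 1 / (8 * (d : ℝ)) + 1 / (8 * d) = 1 / (4 * d) := by field_simp; norm_num
    linarith
  have hη0 : 0 ≤ η := by
    rw [hηe]
    positivity
  have hηe2 : η ≤ 1 / (2 * e) := by
    have h1 : (2 * (e : ℝ)) ≤ 4 * d * t ^ 6 := by
      have g3 : e ≤ B := by
        refine le_trans ?_ hBsed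
        calc e = 1 * e * 1 := by ring
          _ ≤ s * e * d := by gcongr
      have g1 : 2 * e ≤ 4 * d * t ^ 6 := by
        calc 2 * e ≤ 2 * t := Nat.mul_le_mul_left _ (g3.trans hBt)
          _ ≤ 4 * d * t ^ 6 := Nat.mul_le_mul (by omega) (by
              calc t = t ^ 1 := (pow_one t).symm
                _ ≤ t ^ 6 := Nat.pow_le_pow_right (by omega) (by norm_num))
      exact_mod_cast g1
    have h2 : η ≤ 1 / (4 * d * t ^ 6) := by
      rw [le_div_iff₀ (by positivity)]
      rw [le_div_iff₀ (by positivity)] at hηt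
      nlinarith
    exact h2.trans (one_div_le_one_div_of_le (by positivity) h1)
  obtain ⟨z, hz⟩ := exists_fix hp' (val F) (outs n V)
  have hz' := hz.trans hη
  -- the extra examples are not used
  rw [exL_add]
  have h1 : exL (Ew F (wp p)) (t ^ 6) (fun S => exL (Ew F (wp p)) x fun S' =>
      if 1 / (e : ℝ) < err F (wp p) (hyp n a t V (S ++ S')) then 1 else 0) =
      exL (Ew F (wp p)) (t ^ 6) (fun S =>
      if 1 / (e : ℝ) < err F (wp p) (relabel n V (learnT (rr a V.length) t (S.map (projEx V))))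
        then 1 else 0) := by
    refine exL_congr (t ^ 6) fun S hS => ?_
    rw [← exL_const hE hE1 x (if 1 / (e : ℝ) < err F (wp p)
      (relabel n V (learnT (rr a V.length) t (S.map (projEx V)))) then 1 else 0)]
    congr 1
    funext S'
    unfold hyp
    rw [List.take_left' hS]
  rw [h1]
  have h2 : exL (Ew F (wp p)) (t ^ 6) (fun S =>
      if 1 / (e : ℝ) < err F (wp p) (relabel n V (learnT (rr a V.length) t (S.map (projEx V))))
        then (1 : ℝ) else 0) ≤ exL (Ew F (wp p)) (t ^ 6) (fun S =>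
      (fun S' => if 1 / ((2 * e : ℕ) : ℝ) < err (restr V (List.ofFn z) F) (wp fun i => p (vv hVn i))
        (learnT (rr a V.length) t S') then (1 : ℝ) else 0) (S.map (projEx V))) := by
    refine (hE.exL _).mono _ _ fun S => ?_
    beta_reduce
    by_cases h3 : 1 / ((2 * e : ℕ) : ℝ) < err (restr V (List.ofFn z) F) (wp fun i => p (vv hVn i))
        (learnT (rr a V.length) t (S.map (projEx V)))
    · rw [if_pos h3]
      split_ifs <;> norm_num
    · rw [if_neg h3, if_neg]
      rw [not_lt] at h3 ⊢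
      have h4 := err_relabel hVn hVd hp' F z (learnT (rr a V.length) t (S.map (projEx V)))
      have h5 : 1 / ((2 * e : ℕ) : ℝ) + 1 / (2 * e) = 1 / (e : ℝ) := by
        push_cast
        field_simp
        norm_num
      linarith
  refine h2.trans ?_
  have h3 := exL_proj hVn hVd hp' F z η hz' (t ^ 6) (fun S' =>
    if 1 / ((2 * e : ℕ) : ℝ) < err (restr V (List.ofFn z) F) (wp fun i => p (vv hVn i))
      (learnT (rr a V.length) t S') then (1 : ℝ) else 0) fun S' => by
        split_ifs <;> norm_num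
  refine h3.trans ?_
  have h4 := learn_main (n := V.length) (s := s) (K := 1) (e := 2 * e) (d := 4 * d) (a := a) (t := t)
    (m := t ^ 6) hV1 hs1 le_rfl (by omega) (by omega) ha
    (QQ_le hn hs1 he hd ha ht hVc) le_rfl (restr V (List.ofFn z) F)
    ((restr_length V (List.ofFn z) F).trans hs) (wp fun i => p (vv hVn i))
    (wp_nonneg fun i => hp' _) (wp_sum _) (fun i => p (vv hVn i)) (fun i => hp _)
    (fun x => by rw [Nat.cast_one, one_mul]; rfl)
  have h5 : 1 / ((4 * d : ℕ) : ℝ) + 1 / (4 * d) = 1 / (2 * (d : ℝ)) := by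
    push_cast
    field_simp
    norm_num
  have h6 : ((t ^ 6 : ℕ) : ℝ) * η ≤ 1 / (4 * d) := by
    push_cast
    exact hηt
  linarith

/-- The learner for unate formulas. -/
theorem learnN_main (hn : 1 ≤ n) (hs1 : 1 ≤ s) (he : 1 ≤ e) (hd : 1 ≤ d) (ha : 2 ≤ a)
    (ht : BB n s e d ^ (6000 * a ^ 2) ≤ t) (hF : Unate F) (hs : F.length ≤ s)
    (hp : ∀ i, 1 / (a : ℝ) ≤ p i ∧ p i ≤ 1 - 1 / a) {m : ℕ} (hm : t ^ 32 ≤ m) :
    exL (Ew F (wp p)) m
      (fun S => if 1 / (e : ℝ) < err F (wp p) (learnN n a t S) then 1 else 0) ≤ 1 / d := by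
  classical
  have h0 : (0 : ℝ) ≤ 1 / a := by positivity
  have hp' : ∀ i, 0 ≤ p i ∧ p i ≤ 1 := fun i => ⟨h0.trans (hp i).1, by have := (hp i).2; linarith⟩
  have hE : Pos (Ew F (wp p)) := Ew_pos F _ (wp_nonneg hp')
  have hE1 : Ew F (wp p) (fun _ => 1) = 1 := Ew_one F _ (wp_sum p)
  have hB2 := BB_ge_two hn hs1 he hd
  have hBn := BB_ge_n hn hs1 he hd
  have hBsed := BB_ge_sed hn hs1 he hd
  have htB := t_ge hn hs1 he hd ha ht
  obtain ⟨B, hB⟩ : ∃ B, B = BB n s e d := ⟨_, rfl⟩
  rw [← hB] at hB2 hBn hBsed htB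
  have hBt : B ≤ t := by
    refine le_trans ?_ htB
    calc B = 1 * B ^ 1 := by ring
      _ ≤ 256 * a * B ^ 4 := Nat.mul_le_mul (by omega) (Nat.pow_le_pow_right (by omega) (by norm_num))
  have h16 : 16 ≤ t := by
    refine le_trans ?_ htB
    have : 1 ≤ B ^ 4 := Nat.one_le_pow _ _ (by omega)
    nlinarith
  have ht0 : (0 : ℝ) < t := by exact_mod_cast (show 0 < t by omega)
  have hd0 : (0 : ℝ) < d := by exact_mod_cast hd
  obtain ⟨x, hx⟩ : ∃ x, m = t ^ 31 * 2 + (t ^ 6 + x) := by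
    have h1 : t ^ 31 * 2 + t ^ 6 ≤ t ^ 32 := by
      have h2 : t ^ 6 ≤ t ^ 31 := Nat.pow_le_pow_right (by omega) (by norm_num)
      have h3 : t ^ 32 = t ^ 31 * t := by ring
      have h4 : t ^ 31 * 3 ≤ t ^ 31 * t := Nat.mul_le_mul_left _ (by omega)
      omega
    exact ⟨m - (t ^ 31 * 2 + t ^ 6), by omega⟩
  rw [hx, exL_add]
  have h1 : exL (Ew F (wp p)) (t ^ 31 * 2) (fun l => exL (Ew F (wp p)) (t ^ 6 + x) fun S =>
      if 1 / (e : ℝ) < err F (wp p) (learnN n a t (l ++ S)) then (1 : ℝ) else 0) ≤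
      exL (Ew F (wp p)) (t ^ 31 * 2) (fun l => 1 / (2 * (d : ℝ)) +
        (if Acc F p (t ^ 31) (((t ^ 17 : ℕ) : ℝ) / 2) (pieces 2 (t ^ 31) l) then 0 else 1)) := by
    refine exL_mono hE _ fun l hl => ?_
    have h2 : ∀ S : List Ex, learnN n a t (l ++ S) = hyp n a t (selN n t l) S := by
      intro S
      unfold learnN
      rw [List.drop_left' hl]
      congr 1
      unfold selN
      rw [pieces_append 2 (t ^ 31) l S hl.ge]
    simp only [h2]
    by_cases hacc : Acc F p (t ^ 31) (((t ^ 17 : ℕ) : ℝ) / 2) (pieces 2 (t ^ 31) l)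
    · rw [if_pos hacc, add_zero]
      exact inner hn hs1 he hd ha ht hF hs hp hacc x
    · rw [if_neg hacc]
      have h3 : exL (Ew F (wp p)) (t ^ 6 + x) (fun S => if 1 / (e : ℝ) <
          err F (wp p) (hyp n a t (selN n t l) S) then (1 : ℝ) else 0) ≤
          exL (Ew F (wp p)) (t ^ 6 + x) (fun _ => 1) :=
        (hE.exL _).mono _ _ fun S => by split_ifs <;> norm_num
      rw [exL_one hE hE1] at h3
      have : (0 : ℝ) ≤ 1 / (2 * d) := by positivity
      linarith
  refine h1.trans ?_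
  rw [(hE.exL _).add, exL_const hE hE1]
  have h2 := acc_prob F hp' (t ^ 31) (((t ^ 17 : ℕ) : ℝ) / 2) (by positivity)
  have h3 : (n : ℝ) * (((t ^ 31 : ℕ) : ℝ) / ((((t ^ 17 : ℕ) : ℝ)) / 2) ^ 2) ≤ 1 / (4 * d) := by
    have e1 : (n : ℝ) * (((t ^ 31 : ℕ) : ℝ) / ((((t ^ 17 : ℕ) : ℝ)) / 2) ^ 2) = 4 * n / t ^ 3 := by
      push_cast
      field_simp
      ring
    rw [e1, div_le_div_iff₀ (by positivity) (by positivity)]
    have g1 : 16 * n * d ≤ t ^ 3 := by
      have g3 : d ≤ B := by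
        refine le_trans ?_ hBsed
        calc d = 1 * 1 * d := by ring
          _ ≤ s * e * d := by gcongr
      calc 16 * n * d ≤ t * t * t := Nat.mul_le_mul (Nat.mul_le_mul h16 (hBn.trans hBt)) (g3.trans hBt)
        _ = t ^ 3 := by ring
    have g2 : 16 * (n : ℝ) * d ≤ t ^ 3 := by exact_mod_cast g1
    linarith
  have h4 : 1 / (2 * (d : ℝ)) + 1 / (4 * d) ≤ 1 / d := by
    have e1 : 1 / (2 * (d : ℝ)) + 1 / (4 * d) = 3 / 4 * (1 / d) := by field_simp; norm_num
    rw [e1]
    have : (0 : ℝ) ≤ 1 / d := by positivity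
    linarith
  linarith

end

end Pool.Agent.N587.DM
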