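import Pool.Agent.N587.DM.Inf
import Pool.Agent.N587.DL.Tuple

/-!
# The selection of the variables
-/

set_option autoImplicit false

namespace Pool.Agent.N587.DM

open Finset Pool.Agent.N587.DL

/-! ### Chebyshev's inequality -/

section cheb
variable {α : Type} {E : (α → ℝ) → ℝ}

theorem second_moment (hE : Pos E) (h1 : E (fun _ => 1) = 1) (Z : α → ℝ) (hZ : ∀ a, |Z a| ≤ 1) :
    ∀ (k : ℕ) (c : ℝ), exL E k (fun l => (c + ((l.map Z).sum - k * E Z)) ^ 2) ≤ c ^ 2 + k
  | 0, c => by simp [exL_zero]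
  | k + 1, c => by
    rw [exL_succ]
    have h2 : E (fun a => exL E k fun l => (c + (((a :: l).map Z).sum - ((k + 1 : ℕ) : ℝ) * E Z)) ^ 2) ≤
        E (fun a => (c + (Z a - E Z)) ^ 2 + k) := by
      refine hE.mono _ _ fun a => ?_
      refine le_trans (le_of_eq ?_) (second_moment hE h1 Z hZ k (c + (Z a - E Z)))
      congr 1
      funext l
      rw [List.map_cons, List.sum_cons]
      push_cast
      ring
    refine h2.trans ?_
    have h3 : (fun a => (c + (Z a - E Z)) ^ 2 + (k : ℝ)) = fun a =>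
        (c ^ 2 - 2 * c * E Z + E Z * E Z + k) + ((2 * c - 2 * E Z) * Z a + Z a ^ 2) := by
      funext a
      ring
    rw [h3, hE.add (fun _ => c ^ 2 - 2 * c * E Z + E Z * E Z + (k : ℝ)),
      hE.add (fun a => (2 * c - 2 * E Z) * Z a), hE.const, h1, hE.smul]
    have h4 : E (fun a => Z a ^ 2) ≤ 1 := by
      rw [← h1]
      refine hE.mono _ _ fun a => ?_
      have := hZ a
      rw [← sq_abs]
      have h5 := abs_nonneg (Z a)
      nlinarith
    have h5 : (0 : ℝ) ≤ E Z * E Z := mul_self_nonneg _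
    push_cast
    nlinarith

open Classical in
theorem cheb (hE : Pos E) (h1 : E (fun _ => 1) = 1) (Z : α → ℝ) (hZ : ∀ a, |Z a| ≤ 1) (k : ℕ)
    (θ : ℝ) (hθ : 0 < θ) :
    exL E k (fun l => if |(l.map Z).sum - k * E Z| ≤ θ then 0 else 1) ≤ k / θ ^ 2 := by
  have h2 := second_moment hE h1 Z hZ k 0
  have h3 : exL E k (fun l => if |(l.map Z).sum - k * E Z| ≤ θ then (0 : ℝ) else 1) ≤
      exL E k (fun l => 1 / θ ^ 2 * (0 + ((l.map Z).sum - k * E Z)) ^ 2) := by
    refine (hE.exL k).mono _ _ fun l => ?_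
    rw [zero_add]
    split_ifs with h
    · positivity
    · push Not at h
      rw [div_mul_eq_mul_div, one_mul, le_div_iff₀ (by positivity), one_mul, ← sq_abs (_ - _)]
      exact pow_le_pow_left₀ hθ.le h.le 2
  refine h3.trans ?_
  rw [(hE.exL k).smul, div_mul_eq_mul_div, one_mul]
  apply div_le_div_of_nonneg_right _ (by positivity)
  simpa using h2

end cheb

/-! ### The statistic -/

/-- The coordinate `j` of an example. -/
def bit (z : Ex) (j : ℕ) : Bool := decide (z.1[j]? = some true)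

/-- The label and the coordinate `j` change in the same direction. -/
def up (j : ℕ) (P : List Ex) : Bool :=
  ((P.headD ([], false)).2 && !((P.drop 1).headD ([], false)).2 && bit (P.headD ([], false)) j &&
    !bit ((P.drop 1).headD ([], false)) j) ||
  (!(P.headD ([], false)).2 && ((P.drop 1).headD ([], false)).2 && !bit (P.headD ([], false)) j &&
    bit ((P.drop 1).headD ([], false)) j)

/-- The label and the coordinate `j` change in opposite directions. -/
def dn (j : ℕ) (P : List Ex) : Bool :=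
  ((P.headD ([], false)).2 && !((P.drop 1).headD ([], false)).2 && !bit (P.headD ([], false)) j &&
    bit ((P.drop 1).headD ([], false)) j) ||
  (!(P.headD ([], false)).2 && ((P.drop 1).headD ([], false)).2 && bit (P.headD ([], false)) j &&
    !bit ((P.drop 1).headD ([], false)) j)

/-- The number of the pairs of the first kind and of those of the second kind differ by at least
`θ`. -/
def big (θ : ℕ) (Ps : List (List Ex)) (j : ℕ) : Bool :=
  decide (θ + (Ps.filter (dn j)).length ≤ (Ps.filter (up j)).length) ||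
  decide (θ + (Ps.filter (up j)).length ≤ (Ps.filter (dn j)).length)

/-- The difference of the indicators. -/
noncomputable def zz (j : ℕ) (P : List Ex) : ℝ := ind (up j P) - ind (dn j P)

theorem zz_abs (j : ℕ) (P : List Ex) : |zz j P| ≤ 1 := by
  unfold zz ind
  cases up j P <;> cases dn j P <;> simp

theorem sum_zz (j : ℕ) (Ps : List (List Ex)) :
    (Ps.map (zz j)).sum = ((Ps.filter (up j)).length : ℝ) - (Ps.filter (dn j)).length := by
  induction Ps with
  | nil => simp
  | cons P Ps ih =>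
    rw [List.map_cons, List.sum_cons, ih, List.filter_cons, List.filter_cons]
    unfold zz ind
    cases up j P <;> cases dn j P <;> simp <;> ring

variable {n : ℕ}

theorem zz_pair (F : Dnf) (j : Fin n) (x y : Fin n → Bool) :
    zz j [lab F x, lab F y] =
      (ind (val F x) - ind (val F y)) * (ind (x j) - ind (y j)) := by
  have h1 : ∀ x : Fin n → Bool, bit (lab F x) j = x j := by
    intro x
    unfold bit lab
    simp
  unfold zz up dn
  simp only [List.headD_cons, List.drop_one, List.tail_cons, h1]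
  change ind ((val F x && !val F y && x j && !y j) || (!val F x && val F y && !x j && y j)) -
    ind ((val F x && !val F y && !x j && y j) || (!val F x && val F y && x j && !y j)) = _
  cases val F x <;> cases val F y <;> cases x j <;> cases y j <;> simp [ind]

theorem mean_zz (F : Dnf) (p : Fin n → ℝ) (j : Fin n) :
    exL (Ew F (wp p)) 2 (zz j) = mu p (val F) j := by
  change Ew F (wp p) (fun a => Ew F (wp p) fun b => zz j [a, b]) = _
  unfold Ew mu
  refine sum_congr rfl fun x _ => ?_
  congr 1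
  refine sum_congr rfl fun y _ => ?_
  beta_reduce
  rw [zz_pair]

open Classical in
/-- The statistics of all variables are accurate. -/
def Acc (F : Dnf) (p : Fin n → ℝ) (k : ℕ) (θ : ℝ) (Ps : List (List Ex)) : Prop :=
  ∀ j : Fin n, |((Ps.filter (up j)).length : ℝ) - (Ps.filter (dn j)).length - k * mu p (val F) j| ≤ θ

open Classical in
theorem acc_prob (F : Dnf) {p : Fin n → ℝ} (hp : ∀ i, 0 ≤ p i ∧ p i ≤ 1) (k : ℕ) (θ : ℝ)
    (hθ : 0 < θ) :
    exL (Ew F (wp p)) (k * 2) (fun l => if Acc F p k θ (pieces 2 k l) then 0 else 1) ≤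
      n * (k / θ ^ 2) := by
  have hE : Pos (Ew F (wp p)) := Ew_pos F _ (wp_nonneg hp)
  have hE1 : Ew F (wp p) (fun _ => 1) = 1 := Ew_one F _ (wp_sum p)
  rw [exL_pieces 2 k fun Ps => if Acc F p k θ Ps then (0 : ℝ) else 1]
  have hE2 : Pos (exL (Ew F (wp p)) 2) := hE.exL 2
  have hE21 : exL (Ew F (wp p)) 2 (fun _ => 1) = 1 := exL_one hE hE1 2
  have h1 : exL (exL (Ew F (wp p)) 2) k (fun Ps => if Acc F p k θ Ps then (0 : ℝ) else 1) ≤
      exL (exL (Ew F (wp p)) 2) k (fun Ps => ∑ j : Fin n,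
        if |(Ps.map (zz j)).sum - k * exL (Ew F (wp p)) 2 (zz j)| ≤ θ then 0 else 1) := by
    refine (hE2.exL k).mono _ _ fun Ps => ?_
    have hnn : ∀ j ∈ (univ : Finset (Fin n)), (0 : ℝ) ≤
        if |(Ps.map (zz j)).sum - k * exL (Ew F (wp p)) 2 (zz j)| ≤ θ then 0 else 1 := by
      intro j _
      split_ifs <;> norm_num
    split_ifs with h
    · exact sum_nonneg hnn
    · unfold Acc at h
      push Not at h
      obtain ⟨j, hj⟩ := h
      refine le_trans ?_ (single_le_sum hnn (mem_univ j))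
      rw [if_neg]
      rw [sum_zz, mean_zz, not_le]
      exact hj
  refine h1.trans ?_
  rw [(hE2.exL k).sum]
  calc ∑ j : Fin n, exL (exL (Ew F (wp p)) 2) k (fun Ps =>
        if |(Ps.map (zz j)).sum - k * exL (Ew F (wp p)) 2 (zz j)| ≤ θ then (0 : ℝ) else 1) ≤
        ∑ _j : Fin n, (k / θ ^ 2 : ℝ) := sum_le_sum fun j _ => cheb hE2 hE21 (zz j) (zz_abs j) k θ hθ
    _ = n * (k / θ ^ 2) := by rw [sum_const, card_univ, Fintype.card_fin, nsmul_eq_mul]

/-- Selected variables have large influence. -/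
theorem inf_of_big {a k θ : ℕ} {F : Dnf} (hF : Unate F) {p : Fin n → ℝ} (ha : 2 ≤ a)
    (hp : ∀ i, 1 / (a : ℝ) ≤ p i ∧ p i ≤ 1 - 1 / a) (hk : 0 < k) {Ps : List (List Ex)}
    (hacc : Acc F p k (θ / 2) Ps) {j : Fin n} (hj : big θ Ps j = true) :
    (θ : ℝ) / k ≤ inf p (val F) j := by
  have h0 : (0 : ℝ) ≤ 1 / a := by positivity
  have hp' : ∀ i, 0 ≤ p i ∧ p i ≤ 1 := fun i => ⟨h0.trans (hp i).1, by have := (hp i).2; linarith⟩
  have h1 := hacc j
  have h2 := abs_mu hF hp' j
  have h3 := inf_nonneg hp' (val F) j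
  have h4 : p j * (1 - p j) ≤ 1 / 4 := by nlinarith [sq_nonneg (p j - 1 / 2)]
  have h5 : |mu p (val F) j| ≤ inf p (val F) j / 2 := by
    rw [h2]
    nlinarith
  have hk' : (0 : ℝ) < k := by exact_mod_cast hk
  rw [div_le_iff₀ hk']
  unfold big at hj
  rw [Bool.or_eq_true, decide_eq_true_eq, decide_eq_true_eq] at hj
  rw [abs_le] at h1 h5
  rcases hj with hj | hj
  · have h6 : (θ : ℝ) + (Ps.filter (dn j)).length ≤ (Ps.filter (up j)).length := by exact_mod_cast hj
    nlinarith
  · have h6 : (θ : ℝ) + (Ps.filter (up j)).length ≤ (Ps.filter (dn j)).length := by exact_mod_cast hj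
    nlinarith

/-- Variables which are not selected have small influence. -/
theorem inf_of_not_big {a k θ : ℕ} {F : Dnf} (hF : Unate F) {p : Fin n → ℝ} (ha : 2 ≤ a)
    (hp : ∀ i, 1 / (a : ℝ) ≤ p i ∧ p i ≤ 1 - 1 / a) (hk : 0 < k) {Ps : List (List Ex)}
    (hacc : Acc F p k (θ / 2) Ps) {j : Fin n} (hj : big θ Ps j = false) :
    inf p (val F) j ≤ 2 * a * (θ / k) := by
  have h0 : (0 : ℝ) ≤ 1 / a := by positivity
  have ha2 : (2 : ℝ) ≤ a := by exact_mod_cast ha
  have h03 : 1 / (a : ℝ) ≤ 1 / 2 := one_div_le_one_div_of_le (by norm_num) ha2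
  have hp' : ∀ i, 0 ≤ p i ∧ p i ≤ 1 := fun i => ⟨h0.trans (hp i).1, by have := (hp i).2; linarith⟩
  have h1 := hacc j
  have h2 := abs_mu hF hp' j
  have h3 := inf_nonneg hp' (val F) j
  have h4 : 1 / (2 * (a : ℝ)) ≤ p j * (1 - p j) := by
    have h5 := hp j
    have h6 : 1 / (2 * (a : ℝ)) = 1 / a * (1 / 2) := by field_simp
    rw [h6]
    rcases le_total (p j) (1 / 2) with h7 | h7
    · exact mul_le_mul h5.1 (by linarith) (by norm_num) (by linarith)
    · rw [mul_comm (p j)]
      exact mul_le_mul (by linarith) h7 (by norm_num) (by linarith)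
  have h5 : inf p (val F) j ≤ a * |mu p (val F) j| := by
    rw [h2]
    have h6 : 1 ≤ a * (2 * (p j * (1 - p j))) := by
      rw [div_le_iff₀ (by positivity)] at h4
      linarith
    nlinarith
  have hk' : (0 : ℝ) < k := by exact_mod_cast hk
  have h6 : |mu p (val F) j| ≤ 2 * (θ / k) := by
    rw [mul_div_assoc', le_div_iff₀ hk']
    unfold big at hj
    rw [Bool.or_eq_false_iff, decide_eq_false_iff_not, decide_eq_false_iff_not, not_le, not_le] at hj
    have h7 : ((Ps.filter (up j)).length : ℝ) ≤ θ + (Ps.filter (dn j)).length := by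
      exact_mod_cast hj.1.le
    have h8 : ((Ps.filter (dn j)).length : ℝ) ≤ θ + (Ps.filter (up j)).length := by
      exact_mod_cast hj.2.le
    rw [abs_le] at h1
    have hθ : (0 : ℝ) ≤ θ := Nat.cast_nonneg _
    rcases abs_cases (mu p (val F) j) with ⟨h9, _⟩ | ⟨h9, _⟩
    · rw [h9]
      nlinarith
    · rw [h9]
      nlinarith
  calc inf p (val F) j ≤ a * |mu p (val F) j| := h5
    _ ≤ a * (2 * (θ / k)) := mul_le_mul_of_nonneg_left h6 (by linarith)
    _ = 2 * a * (θ / k) := by ring

end Pool.Agent.N587.DM
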