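import Pool.Agent.N587.DL.Bias

/-!
# Product distributions on the cube
-/

set_option autoImplicit false

namespace Pool.Agent.N587.DM

open Finset Pool.Agent.N587.DL

variable {n : ℕ}

/-- The weight of a point under the product distribution with the marginals `p`. -/
noncomputable def wp (p : Fin n → ℝ) (x : Fin n → Bool) : ℝ := ∏ i, pr (p i) (x i)

theorem pr_add (p : ℝ) : pr p true + pr p false = 1 := by simp [pr]

theorem wp_sum (p : Fin n → ℝ) : ∑ x, wp p x = 1 := by
  unfold wp
  rw [sum_prod_bool (fun i b => pr (p i) b)]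
  exact prod_eq_one fun i _ => pr_add _

theorem pr_nonneg {q : ℝ} (hq : 0 ≤ q ∧ q ≤ 1) (b : Bool) : 0 ≤ pr q b := by
  unfold pr
  split_ifs <;> linarith [hq.1, hq.2]

theorem wp_nonneg {p : Fin n → ℝ} (hp : ∀ i, 0 ≤ p i ∧ p i ≤ 1) (x : Fin n → Bool) : 0 ≤ wp p x :=
  prod_nonneg fun i _ => pr_nonneg (hp i) _

/-- The coordinates in `J` are replaced by those of `z`. -/
def mix (J : Finset (Fin n)) (x z : Fin n → Bool) : Fin n → Bool := fun i => if i ∈ J then z i else x i

theorem wp_mix (p : Fin n → ℝ) (J : Finset (Fin n)) (x z : Fin n → Bool) :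
    wp p (mix J x z) * wp p (mix J z x) = wp p x * wp p z := by
  unfold wp
  rw [← prod_mul_distrib, ← prod_mul_distrib]
  refine prod_congr rfl fun i _ => ?_
  unfold mix
  split_ifs
  · ring
  · ring

/-- Exchanging the coordinates in `J`. -/
def mixE (J : Finset (Fin n)) : (Fin n → Bool) × (Fin n → Bool) ≃ (Fin n → Bool) × (Fin n → Bool) where
  toFun q := (mix J q.1 q.2, mix J q.2 q.1)
  invFun q := (mix J q.1 q.2, mix J q.2 q.1)
  left_inv q := by
    ext i
    · simp only [mix]; split_ifs <;> rfl
    · simp only [mix]; split_ifs <;> rfl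
  right_inv q := by
    ext i
    · simp only [mix]; split_ifs <;> rfl
    · simp only [mix]; split_ifs <;> rfl

theorem sum_mix (p : Fin n → ℝ) (J : Finset (Fin n)) (g : (Fin n → Bool) → ℝ) :
    ∑ x, ∑ z, wp p x * wp p z * g (mix J x z) = ∑ x, wp p x * g x := by
  have h1 : ∑ q : (Fin n → Bool) × (Fin n → Bool), wp p q.1 * wp p q.2 * g (mix J q.1 q.2) =
      ∑ q : (Fin n → Bool) × (Fin n → Bool), wp p q.1 * wp p q.2 * g q.1 := by
    rw [← (mixE J).sum_comp]
    refine sum_congr rfl fun q _ => ?_
    change wp p (mix J q.1 q.2) * wp p (mix J q.2 q.1) * g (mix J (mix J q.1 q.2) (mix J q.2 q.1)) = _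
    rw [wp_mix]
    congr 2
    funext i
    simp only [mix]
    split_ifs <;> rfl
  rw [Fintype.sum_prod_type, Fintype.sum_prod_type] at h1
  simp only at h1
  rw [h1]
  refine sum_congr rfl fun x _ => ?_
  have : ∀ z, wp p x * wp p z * g x = (wp p x * g x) * wp p z := fun z => by ring
  rw [sum_congr rfl fun z _ => this z, ← mul_sum, wp_sum, mul_one]

theorem sum_coord (p : Fin n → ℝ) (j : Fin n) (h : Bool → ℝ) :
    ∑ z, wp p z * h (z j) = p j * h true + (1 - p j) * h false := by
  have e : ∀ z : Fin n → Bool, wp p z * h (z j) =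
      ∏ i, (pr (p i) (z i) * (if i = j then h (z i) else 1)) := fun z => by
    rw [prod_mul_distrib]
    congr 1
    rw [prod_ite_eq' univ j fun i => h (z i), if_pos (mem_univ _)]
  rw [sum_congr rfl fun z _ => e z, sum_prod_bool (fun i c => pr (p i) c * (if i = j then h c else 1)),
    prod_eq_single j]
  · simp [pr]
  · intro i _ hi
    simp [hi, pr]
  · intro hj
    exact absurd (mem_univ _) hj

theorem mix_single (j : Fin n) (x z : Fin n → Bool) : mix {j} x z = Function.update x j (z j) := by
  funext i
  unfold mix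
  by_cases h : i = j
  · subst h
    simp
  · simp [h]

theorem sum_update (p : Fin n → ℝ) (j : Fin n) (g : (Fin n → Bool) → ℝ) :
    ∑ x, wp p x * g x = p j * (∑ x, wp p x * g (Function.update x j true)) +
      (1 - p j) * ∑ x, wp p x * g (Function.update x j false) := by
  rw [← sum_mix p {j}]
  have h : ∀ x : Fin n → Bool, ∑ z, wp p x * wp p z * g (mix {j} x z) =
      wp p x * (p j * g (Function.update x j true) + (1 - p j) * g (Function.update x j false)) := by
    intro x
    rw [← sum_coord p j fun b => g (Function.update x j b), mul_sum]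
    refine sum_congr rfl fun z _ => ?_
    rw [mix_single]
    ring
  rw [sum_congr rfl fun x _ => h x, mul_sum, mul_sum, ← sum_add_distrib]
  refine sum_congr rfl fun x _ => ?_
  ring

/-- Restriction to some of the coordinates. -/
theorem sum_comp_inj {k : ℕ} (p : Fin n → ℝ) (v : Fin k → Fin n) (hv : Function.Injective v)
    (g : (Fin k → Bool) → ℝ) :
    ∑ x, wp p x * g (fun i => x (v i)) = ∑ y, wp (fun i => p (v i)) y * g y := by
  classical
  have h1 : ∑ x, wp p x * g (fun i => x (v i)) =
      ∑ y : Fin k → Bool, (∑ x, if (fun i => x (v i)) = y then wp p x else 0) * g y := by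
    simp_rw [sum_mul]
    rw [sum_comm]
    refine sum_congr rfl fun x _ => ?_
    rw [Fintype.sum_eq_single (fun i => x (v i))]
    · simp
    · intro y hy
      rw [if_neg (fun h => hy h.symm), zero_mul]
  rw [h1]
  refine sum_congr rfl fun y _ => ?_
  congr 1
  have e : ∀ x : Fin n → Bool, (if (fun i => x (v i)) = y then wp p x else 0) =
      ∏ i, (pr (p i) (x i) * (if ∀ k', v k' = i → x i = y k' then 1 else 0)) := fun x => by
    rw [prod_mul_distrib]
    by_cases h : (fun i => x (v i)) = y
    · rw [if_pos h, prod_eq_one (s := univ) (f := fun i => if ∀ k', v k' = i → x i = y k' then (1 : ℝ) else 0),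
        mul_one]
      · rfl
      · intro i _
        rw [if_pos]
        intro k' hk
        rw [← hk]
        exact congrFun h k'
    · rw [if_neg h]
      obtain ⟨k', hk'⟩ : ∃ k', x (v k') ≠ y k' := by
        by_contra hcon
        push Not at hcon
        exact h (funext hcon)
      symm
      rw [prod_eq_zero (i := v k') (mem_univ _) (f := fun i => if ∀ k', v k' = i → x i = y k' then (1 : ℝ) else 0),
        mul_zero]
      rw [if_neg]
      intro h2
      exact hk' (h2 k' rfl)
  rw [sum_congr rfl fun x _ => e x,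
    sum_prod_bool (fun i c => pr (p i) c * (if ∀ k', v k' = i → c = y k' then 1 else 0))]
  have e2 : ∀ i, (pr (p i) true * (if ∀ k', v k' = i → true = y k' then (1 : ℝ) else 0) +
      pr (p i) false * (if ∀ k', v k' = i → false = y k' then (1 : ℝ) else 0)) =
      if i ∈ univ.image v then ∏ k' ∈ univ.filter (fun k' => v k' = i), pr (p i) (y k') else 1 := by
    intro i
    by_cases hi : i ∈ univ.image v
    · rw [if_pos hi]
      obtain ⟨k0, -, hk0⟩ := mem_image.1 hi
      have h3 : univ.filter (fun k' => v k' = i) = {k0} := by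
        ext k'
        simp only [mem_filter, mem_univ, true_and, mem_singleton]
        exact ⟨fun h => hv (h.trans hk0.symm), fun h => h ▸ hk0⟩
      rw [h3, prod_singleton]
      have h4 : ∀ c : Bool, (∀ k', v k' = i → c = y k') ↔ c = y k0 := fun c =>
        ⟨fun h => h k0 hk0, fun h k' hk' => by rw [hv (hk'.trans hk0.symm)]; exact h⟩
      simp only [h4]
      cases y k0 <;> simp
    · rw [if_neg hi]
      have h4 : ∀ c : Bool, (∀ k', v k' = i → c = y k') := fun c k' hk' =>
        absurd (mem_image.2 ⟨k', mem_univ _, hk'⟩) hi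
      rw [if_pos (h4 true), if_pos (h4 false)]
      simp [pr]
  rw [prod_congr rfl fun i _ => e2 i, prod_ite, prod_const_one, mul_one]
  unfold wp
  have h5 : univ.filter (fun i => i ∈ univ.image v) = univ.image v := by
    ext i; simp
  rw [h5, prod_image (fun a _ b _ h => hv h)]
  refine prod_congr rfl fun k0 _ => ?_
  have h3 : univ.filter (fun k' => v k' = v k0) = {k0} := by
    ext k'
    simp only [mem_filter, mem_univ, true_and, mem_singleton]
    exact ⟨fun h => hv h, fun h => h ▸ rfl⟩
  rw [h3, prod_singleton]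

/-- The probability that some coordinates have given values. -/
theorem prob_fix (p : Fin n → ℝ) (I : Finset (Fin n)) (b : Fin n → Bool) :
    ∑ x, wp p x * (if ∀ i ∈ I, x i = b i then 1 else 0) = ∏ i ∈ I, pr (p i) (b i) := by
  classical
  have e : ∀ x : Fin n → Bool, wp p x * (if ∀ i ∈ I, x i = b i then 1 else 0) =
      ∏ i, (pr (p i) (x i) * (if i ∈ I then (if x i = b i then 1 else 0) else 1)) := fun x => by
    rw [prod_mul_distrib]
    congr 1
    by_cases h : ∀ i ∈ I, x i = b i
    · rw [if_pos h]
      symm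
      refine prod_eq_one fun i _ => ?_
      by_cases hi : i ∈ I
      · rw [if_pos hi, if_pos (h i hi)]
      · rw [if_neg hi]
    · rw [if_neg h]
      push Not at h
      obtain ⟨i, hi, hne⟩ := h
      symm
      refine prod_eq_zero (mem_univ i) ?_
      rw [if_pos hi, if_neg hne]
  rw [sum_congr rfl fun x _ => e x, sum_prod_bool
    (fun i c => pr (p i) c * (if i ∈ I then (if c = b i then 1 else 0) else 1))]
  have e2 : ∀ i, pr (p i) true * (if i ∈ I then (if true = b i then (1 : ℝ) else 0) else 1) +
      pr (p i) false * (if i ∈ I then (if false = b i then (1 : ℝ) else 0) else 1) =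
      if i ∈ I then pr (p i) (b i) else 1 := by
    intro i
    by_cases hi : i ∈ I
    · simp only [hi, if_true]
      cases b i <;> simp
    · simp only [hi, if_false, mul_one]
      exact pr_add _
  rw [prod_congr rfl fun i _ => e2 i]
  rw [prod_ite_mem, univ_inter]

theorem prob_fix_le {a : ℕ} {p : Fin n → ℝ} (hp : ∀ i, 1 / (a : ℝ) ≤ p i ∧ p i ≤ 1 - 1 / a)
    (I : Finset (Fin n)) (b : Fin n → Bool) :
    ∑ x, wp p x * (if ∀ i ∈ I, x i = b i then 1 else 0) ≤ (1 - 1 / (a : ℝ)) ^ I.card := by
  rw [prob_fix]
  have h0 : (0 : ℝ) ≤ 1 / a := by positivity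
  calc ∏ i ∈ I, pr (p i) (b i) ≤ ∏ _i ∈ I, (1 - 1 / (a : ℝ)) := by
        refine prod_le_prod (fun i _ => ?_) fun i _ => ?_
        · have := hp i
          exact pr_nonneg ⟨by linarith, by linarith⟩ _
        · have := hp i
          unfold pr
          split_ifs <;> linarith
    _ = (1 - 1 / (a : ℝ)) ^ I.card := by rw [prod_const]

end Pool.Agent.N587.DM
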