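import Pool.Agent.N587.DM.Main
import Pool.Agent.N587.DL.Conv

/-!
# The learner for unate formulas: polynomial time, and the probability as a finite sum
-/

set_option autoImplicit false

namespace Pool.Agent.N587.DM

open Pool.Agent.NPC Pool.Agent.N587.DL

/-- The learner: the input is a number `t` in unary and a sample. -/
def learnU (a : ℕ) (z : List Unit × List Ex) : Dnf :=
  relabel (dim z.2) (selN (dim z.2) z.1.length z.2) (learn a (z.1,
    ((z.2.drop (z.1.length ^ 31 * 2)).take (z.1.length ^ 6)).map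
      (projEx (selN (dim z.2) z.1.length z.2))))

section
variable {α : Type} [TEnc α]

theorem upoly_pow {t : α → ℕ} (ht : UPoly t) (k : ℕ) : UPoly (fun a => t a ^ k) := by
  have h := ht.eval ((Polynomial.X : Polynomial ℕ) ^ k)
  simpa using h

theorem poly_headD {P : α → List Ex} (hP : NPC.Poly P) :
    NPC.Poly (fun a => (P a).headD ([], false)) :=
  (NPC.Poly.getD (d := fun _ => (([], false) : Ex)) hP (NPC.Poly.const 0) (NPC.Poly.const _)).congr
    fun a => (headD_eq _ _).symm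

theorem poly_bit {z : α → Ex} {j : α → ℕ} (hz : NPC.Poly z) (hj : NPC.Poly j) :
    NPC.Poly (fun a => bit (z a) (j a)) :=
  NPC.Poly.decide_eq (NPC.Poly.getElem? (NPC.Poly.fst hz) hj) (NPC.Poly.const _)

theorem poly_up {P : α → List Ex} {j : α → ℕ} (hP : NPC.Poly P) (hj : NPC.Poly j) :
    NPC.Poly (fun a => up (j a) (P a)) := by
  have h1 := poly_headD hP
  have h2 := poly_headD (poly_drop hP (NPC.Poly.const 1))
  have b1 := poly_bit h1 hj
  have b2 := poly_bit h2 hj
  exact NPC.Poly.or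
    (NPC.Poly.and (NPC.Poly.and (NPC.Poly.and (NPC.Poly.snd h1) (NPC.Poly.not (NPC.Poly.snd h2))) b1)
      (NPC.Poly.not b2))
    (NPC.Poly.and (NPC.Poly.and (NPC.Poly.and (NPC.Poly.not (NPC.Poly.snd h1)) (NPC.Poly.snd h2))
      (NPC.Poly.not b1)) b2)

theorem poly_dn {P : α → List Ex} {j : α → ℕ} (hP : NPC.Poly P) (hj : NPC.Poly j) :
    NPC.Poly (fun a => dn (j a) (P a)) := by
  have h1 := poly_headD hP
  have h2 := poly_headD (poly_drop hP (NPC.Poly.const 1))
  have b1 := poly_bit h1 hj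
  have b2 := poly_bit h2 hj
  exact NPC.Poly.or
    (NPC.Poly.and (NPC.Poly.and (NPC.Poly.and (NPC.Poly.snd h1) (NPC.Poly.not (NPC.Poly.snd h2)))
      (NPC.Poly.not b1)) b2)
    (NPC.Poly.and (NPC.Poly.and (NPC.Poly.and (NPC.Poly.not (NPC.Poly.snd h1)) (NPC.Poly.snd h2)) b1)
      (NPC.Poly.not b2))

theorem poly_big {θ : α → ℕ} {Ps : α → List (List Ex)} {j : α → ℕ} (hθ : NPC.Poly θ)
    (hP : NPC.Poly Ps) (hj : NPC.Poly j) : NPC.Poly (fun a => big (θ a) (Ps a) (j a)) := by
  have h1 : NPC.Poly (fun a => ((Ps a).filter (dn (j a))).length) :=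
    NPC.Poly.length (NPC.Poly.filter (p := fun a P => dn (j a) P) hP
      (poly_dn (NPC.Poly.snd NPC.Poly.id) (hj.comp (NPC.Poly.fst NPC.Poly.id))))
  have h2 : NPC.Poly (fun a => ((Ps a).filter (up (j a))).length) :=
    NPC.Poly.length (NPC.Poly.filter (p := fun a P => up (j a) P) hP
      (poly_up (NPC.Poly.snd NPC.Poly.id) (hj.comp (NPC.Poly.fst NPC.Poly.id))))
  exact NPC.Poly.or (NPC.Poly.decide_le (NPC.Poly.add hθ h1) h2)
    (NPC.Poly.decide_le (NPC.Poly.add hθ h2) h1)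

theorem poly_projEx {V : α → List ℕ} {z : α → Ex} (hV : NPC.Poly V) (hz : NPC.Poly z) :
    NPC.Poly (fun a => projEx (V a) (z a)) :=
  NPC.Poly.pair (NPC.Poly.map (F := fun a j => decide ((z a).1[j]? = some true)) hV
    (NPC.Poly.decide_eq (NPC.Poly.getElem? (NPC.Poly.fst (hz.comp (NPC.Poly.fst NPC.Poly.id)))
      (NPC.Poly.snd NPC.Poly.id)) (NPC.Poly.const _))) (NPC.Poly.snd hz)

theorem poly_relabel {N : α → ℕ} {V : α → List ℕ} {H : α → Dnf} (hN : NPC.Poly N)
    (hV : NPC.Poly V) (hH : NPC.Poly H) : NPC.Poly (fun a => relabel (N a) (V a) (H a)) := by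
  refine NPC.Poly.map (F := fun a (T : Term) => T.map (relab (N a) (V a))) hH ?_
  refine NPC.Poly.map (F := fun (q : α × Term) (l : Lit) => relab (N q.1) (V q.1) l)
    (NPC.Poly.snd NPC.Poly.id) ?_
  refine NPC.Poly.pair ?_ (NPC.Poly.snd (NPC.Poly.snd NPC.Poly.id))
  refine (NPC.Poly.getD (hV.comp (NPC.Poly.fst (NPC.Poly.fst NPC.Poly.id)))
    (NPC.Poly.fst (NPC.Poly.snd NPC.Poly.id))
    (hN.comp (NPC.Poly.fst (NPC.Poly.fst NPC.Poly.id)))).congr fun q => ?_
  rw [List.getD_eq_getElem?_getD]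

end

theorem poly_sel : NPC.Poly (fun z : List Unit × List Ex => selN (dim z.2) z.1.length z.2) := by
  have hS : NPC.Poly (fun z : List Unit × List Ex => z.2) := NPC.Poly.snd NPC.Poly.id
  have ht : UPoly (fun z : List Unit × List Ex => z.1.length) :=
    UPoly.length (NPC.Poly.fst NPC.Poly.id)
  have hhead : NPC.Poly (fun z : List Unit × List Ex => (z.2.headD ([], false)).1) :=
    NPC.Poly.fst (poly_headD hS)
  unfold selN
  refine NPC.Poly.filter (p := fun (z : List Unit × List Ex) j => decide (j = 0) ||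
    big (z.1.length ^ 17) (pieces 2 (z.1.length ^ 31) z.2) j) (NPC.Poly.range_length hhead) ?_
  refine NPC.Poly.or (NPC.Poly.decide_eq (NPC.Poly.snd NPC.Poly.id) (NPC.Poly.const 0)) ?_
  refine poly_big ((upoly_pow ht 17).toPoly.comp (NPC.Poly.fst NPC.Poly.id)) ?_
    (NPC.Poly.snd NPC.Poly.id)
  have h1 : NPC.Poly (fun z : List Unit × List Ex => pieces 2 (z.1.length ^ 31) z.2) :=
    (poly_pieces (b := fun _ => 2) (k := fun z : List Unit × List Ex =>
      List.replicate (z.1.length ^ 31) ()) (NPC.Poly.const 2) (upoly_pow ht 31) hS).congr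
      fun z => by simp
  exact h1.comp (NPC.Poly.fst NPC.Poly.id)

theorem poly_learnU (a : ℕ) : NPC.Poly (learnU a) := by
  have hS : NPC.Poly (fun z : List Unit × List Ex => z.2) := NPC.Poly.snd NPC.Poly.id
  have ht : UPoly (fun z : List Unit × List Ex => z.1.length) :=
    UPoly.length (NPC.Poly.fst NPC.Poly.id)
  have hdim : NPC.Poly (fun z : List Unit × List Ex => dim z.2) :=
    NPC.Poly.length (NPC.Poly.fst (poly_headD hS))
  refine poly_relabel hdim poly_sel ?_
  refine (poly_learn a).comp (NPC.Poly.pair (NPC.Poly.fst NPC.Poly.id) ?_)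
  refine NPC.Poly.map (F := fun (z : List Unit × List Ex) w =>
    projEx (selN (dim z.2) z.1.length z.2) w) ?_
    (poly_projEx (poly_sel.comp (NPC.Poly.fst NPC.Poly.id)) (NPC.Poly.snd NPC.Poly.id))
  exact poly_take (poly_drop hS (NPC.Poly.mul (upoly_pow ht 31).toPoly (NPC.Poly.const 2)))
    (upoly_pow ht 6).toPoly

theorem learnU_eq {n t a : ℕ} (hn : 1 ≤ n) (ht : 1 ≤ t) {S : List Ex} (hS : dim S = n)
    (hlen : t ^ 31 * 2 + 1 ≤ S.length) :
    learnU a (List.replicate t (), S) = learnN n a t S := by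
  unfold learnU learnN hyp learn
  simp only [List.length_replicate, hS]
  congr 2
  congr 1
  obtain ⟨w, S', hw⟩ : ∃ w S', (S.drop (t ^ 31 * 2)).take (t ^ 6) = w :: S' := by
    apply List.exists_cons_of_ne_nil
    intro h
    have h1 := congrArg List.length h
    rw [List.length_take, List.length_drop, List.length_nil] at h1
    have h2 : 1 ≤ t ^ 6 := Nat.one_le_pow _ _ ht
    omega
  rw [hw]
  unfold dim
  simp [projEx, proj]

theorem learnU_sum {n s e d a t m : ℕ} (hn : 1 ≤ n) (hs1 : 1 ≤ s) (he : 1 ≤ e)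
    (hd : 1 ≤ d) (ha : 2 ≤ a) (ht : BB n s e d ^ (6000 * a ^ 2) ≤ t) (hm : t ^ 32 ≤ m)
    {F : Dnf} (hF : Unate F) (hs : F.length ≤ s) {p : Fin n → ℝ}
    (hp : ∀ i, 1 / (a : ℝ) ≤ p i ∧ p i ≤ 1 - 1 / a) :
    ∑ x : Fin m → Fin n → Bool, (if 1 / (e : ℝ) < err F (wp p) (learnU a
      (List.replicate t (), List.ofFn fun j => lab F (x j))) then ∏ j, wp p (x j) else 0) ≤
      1 / d := by
  have h1 := learnN_main hn hs1 he hd ha ht hF hs hp hm
  rw [exL_eq_sum] at h1
  refine le_trans (le_of_eq ?_) h1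
  have hB2 := BB_ge_two hn hs1 he hd
  have htB := t_ge hn hs1 he hd ha ht
  have ht3 : 3 ≤ t := by
    refine le_trans ?_ htB
    have : 1 ≤ BB n s e d ^ 4 := Nat.one_le_pow _ _ (by omega)
    nlinarith
  have hm1 : t ^ 31 * 2 + 1 ≤ m := by
    refine le_trans ?_ hm
    have h3 : t ^ 32 = t ^ 31 * t := by ring
    have h4 : t ^ 31 * 3 ≤ t ^ 31 * t := Nat.mul_le_mul_left _ ht3
    have h5 : 1 ≤ t ^ 31 := Nat.one_le_pow _ _ (by omega)
    omega
  refine Finset.sum_congr rfl fun x _ => ?_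
  rw [learnU_eq hn (by omega) (dim_ofFn F (by omega) x) (by rw [List.length_ofFn]; exact hm1)]
  split_ifs <;> simp

end Pool.Agent.N587.DM
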